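import Mathlib

set_option autoImplicit false

open scoped ComplexOrder MatrixOrder
open Matrix

namespace Pool.Agent.W39.Nuc

variable {n : Type*} [Fintype n] [DecidableEq n]

lemma one_le_eigenvalues {Q : Matrix n n ℂ} (hQ : Q.IsHermitian) (hQ1 : (Q - 1).PosSemidef)
    (i : n) : 1 ≤ hQ.eigenvalues i := by
  have h1 := hQ1.re_dotProduct_nonneg (hQ.eigenvectorBasis i)
  rw [sub_mulVec, one_mulVec, dotProduct_sub, map_sub] at h1
  have h2 := hQ.eigenvalues_eq i
  have h3 : star (⇑(hQ.eigenvectorBasis i)) ⬝ᵥ ⇑(hQ.eigenvectorBasis i) = (1 : ℂ) := by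
    rw [dotProduct_comm, ← EuclideanSpace.inner_eq_star_dotProduct,
      inner_self_eq_norm_sq_to_K, hQ.eigenvectorBasis.orthonormal.1 i]
    simp
  rw [h3] at h1
  have h4 : RCLike.re (1 : ℂ) = 1 := by simp
  rw [h4] at h1
  rw [h2]
  linarith

lemma eigenvalues_le_det {Q : Matrix n n ℂ} (hQ : Q.IsHermitian) (hQ1 : (Q - 1).PosSemidef)
    (i : n) : hQ.eigenvalues i ≤ ∏ j, hQ.eigenvalues j := by
  rw [← Finset.mul_prod_erase Finset.univ (fun j => hQ.eigenvalues j) (Finset.mem_univ i)]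
  have h1 : (1 : ℝ) ≤ ∏ j ∈ Finset.univ.erase i, hQ.eigenvalues j := by
    calc (1 : ℝ) = ∏ j ∈ Finset.univ.erase i, (1 : ℝ) := by simp
      _ ≤ _ := Finset.prod_le_prod (fun _ _ => zero_le_one)
        (fun j _ => one_le_eigenvalues hQ hQ1 j)
  have h2 := one_le_eigenvalues hQ hQ1 i
  nlinarith

lemma det_re_eq {Q : Matrix n n ℂ} (hQ : Q.IsHermitian) :
    Q.det = ((∏ j, hQ.eigenvalues j : ℝ) : ℂ) := by
  rw [hQ.det_eq_prod_eigenvalues, Complex.ofReal_prod]
  rfl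

lemma quad_le_det {Q : Matrix n n ℂ} (hQ : Q.IsHermitian) (hQ1 : (Q - 1).PosSemidef)
    (w : n → ℂ) : (star w ⬝ᵥ Q *ᵥ w).re ≤ Q.det.re * (star w ⬝ᵥ w).re := by
  set c : ℝ := ∏ j, hQ.eigenvalues j with hc
  have hps : ((c : ℂ) • (1 : Matrix n n ℂ) - Q).PosSemidef := by
    have h1 : (c : ℂ) • (1 : Matrix n n ℂ) - Q
        = Unitary.conjStarAlgAut ℂ _ hQ.eigenvectorUnitary
          (diagonal (fun i => ((c - hQ.eigenvalues i : ℝ) : ℂ))) := by
      conv_lhs => rw [hQ.spectral_theorem]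
      have h2 : (c : ℂ) • (1 : Matrix n n ℂ)
          = Unitary.conjStarAlgAut ℂ _ hQ.eigenvectorUnitary ((c : ℂ) • (1 : Matrix n n ℂ)) := by
        rw [map_smul, map_one]
      rw [h2, ← map_sub]
      congr 1
      ext i j
      by_cases hij : i = j
      · subst hij
        simp
      · simp [hij]
    rw [h1, Unitary.conjStarAlgAut_apply]
    refine PosSemidef.mul_mul_conjTranspose_same ?_ _
    refine PosSemidef.diagonal ?_
    intro i
    have := eigenvalues_le_det hQ hQ1 i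
    simp only [Pi.zero_apply]
    rw [Complex.zero_le_real]
    linarith
  have h5 := hps.re_dotProduct_nonneg w
  rw [sub_mulVec, smul_mulVec, one_mulVec, dotProduct_sub, dotProduct_smul, map_sub] at h5
  rw [det_re_eq hQ, Complex.ofReal_re]
  have h6 : RCLike.re ((c : ℂ) • (star w ⬝ᵥ w)) = c * (star w ⬝ᵥ w).re := by
    simp
  rw [h6] at h5
  have h7 : RCLike.re (star w ⬝ᵥ Q *ᵥ w) = (star w ⬝ᵥ Q *ᵥ w).re := rfl
  rw [h7] at h5
  linarith

lemma det_mul_quad_le {M G : Matrix n n ℂ} (hM : M.PosDef) (hG : G.PosSemidef) (v : n → ℂ) :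
    M.det.re * (star v ⬝ᵥ (M + G) *ᵥ v).re ≤ (M + G).det.re * (star v ⬝ᵥ M *ᵥ v).re := by
  obtain ⟨C, hC⟩ := CStarAlgebra.nonneg_iff_eq_star_mul_self.mp hM.posSemidef.nonneg
  have hdet : M.det = star C.det * C.det := by
    rw [hC, det_mul, star_eq_conjTranspose, det_conjTranspose]
  have hMpos := hM.det_pos
  have hCdet : C.det ≠ 0 := by
    intro h0
    rw [hdet, h0, mul_zero] at hMpos
    exact lt_irrefl _ hMpos
  have hCu : IsUnit C.det := isUnit_iff_ne_zero.2 hCdet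
  set Q : Matrix n n ℂ := 1 + (C⁻¹)ᴴ * G * C⁻¹ with hQdef
  have hps : ((C⁻¹)ᴴ * G * C⁻¹).PosSemidef := hG.conjTranspose_mul_mul_same _
  have hQ1 : (Q - 1).PosSemidef := by
    rw [hQdef, add_sub_cancel_left]; exact hps
  have hQ : Q.IsHermitian := by
    rw [hQdef]; exact isHermitian_one.add hps.1
  have hMG : M + G = Cᴴ * Q * C := by
    rw [hQdef, mul_add, add_mul, mul_one, hC, star_eq_conjTranspose]
    congr 1
    rw [← mul_assoc, ← mul_assoc, ← conjTranspose_mul, nonsing_inv_mul _ hCu,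
      conjTranspose_one, one_mul, mul_assoc, nonsing_inv_mul _ hCu, mul_one]
  have hdet2 : (M + G).det = M.det * Q.det := by
    rw [hMG, det_mul, det_mul, det_conjTranspose, hdet]
    ring
  have hquad : star v ⬝ᵥ (M + G) *ᵥ v = star (C *ᵥ v) ⬝ᵥ Q *ᵥ (C *ᵥ v) := by
    rw [hMG, star_mulVec, ← dotProduct_mulVec, mulVec_mulVec, mulVec_mulVec]
  have hquad2 : star v ⬝ᵥ M *ᵥ v = star (C *ᵥ v) ⬝ᵥ (C *ᵥ v) := by
    rw [hC, star_mulVec, ← dotProduct_mulVec, mulVec_mulVec, star_eq_conjTranspose]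
  have h := quad_le_det hQ hQ1 (C *ᵥ v)
  rw [hdet2, hquad, hquad2]
  have hMre : M.det = ((M.det.re : ℝ) : ℂ) := by
    apply Complex.ext
    · simp
    · have := (Complex.lt_def.1 hMpos).2
      simp [← this]
  have hMre0 : 0 ≤ M.det.re := (Complex.lt_def.1 hMpos).1.le
  have h3 : (M.det * Q.det).re = M.det.re * Q.det.re := by
    rw [hMre]
    simp
  rw [h3, mul_assoc]
  exact mul_le_mul_of_nonneg_left h hMre0

end Pool.Agent.W39.Nuc
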