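import Mathlib

set_option autoImplicit false

open scoped ComplexOrder
open Matrix

namespace Pool.Agent.W39.Nuc

/-- continuous functionals of norm at most one with `f 1 = 1` -/
def St (A : Type*) [CStarAlgebra A] : Set (StrongDual ℂ A) := {f | ‖f‖ ≤ 1 ∧ f 1 = 1}

section basic

variable {A : Type*} [CStarAlgebra A]

lemma St.norm_apply_le {f : StrongDual ℂ A} (hf : f ∈ St A) (x : A) : ‖f x‖ ≤ ‖x‖ := by
  have h := f.le_opNorm x
  have h2 : ‖f‖ * ‖x‖ ≤ 1 * ‖x‖ := by gcongr; exact hf.1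
  linarith

/-- convex combinations of states -/
lemma St.convex_comb {f g : StrongDual ℂ A} (hf : f ∈ St A) (hg : g ∈ St A) {t : ℝ}
    (ht0 : 0 ≤ t) (ht1 : t ≤ 1) : ((1 - t : ℝ) : ℂ) • f + (t : ℂ) • g ∈ St A := by
  refine ⟨?_, ?_⟩
  · refine (norm_add_le _ _).trans ?_
    rw [norm_smul, norm_smul, Complex.norm_real, Complex.norm_real, Real.norm_of_nonneg ht0,
      Real.norm_of_nonneg (by linarith)]
    have := hf.1
    have := hg.1
    nlinarith
  · simp [hf.2, hg.2]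

/-- finite convex combinations of states -/
lemma St.sum_mem {ι : Type*} (s : Finset ι) (p : ι → ℝ) (f : ι → StrongDual ℂ A)
    (hf : ∀ i ∈ s, f i ∈ St A) (hp : ∀ i ∈ s, 0 ≤ p i) (hs : ∑ i ∈ s, p i = 1) :
    ∑ i ∈ s, ((p i : ℝ) : ℂ) • f i ∈ St A := by
  refine ⟨?_, ?_⟩
  · calc ‖∑ i ∈ s, ((p i : ℝ) : ℂ) • f i‖ ≤ ∑ i ∈ s, ‖((p i : ℝ) : ℂ) • f i‖ := norm_sum_le _ _
      _ ≤ ∑ i ∈ s, p i := by
        refine Finset.sum_le_sum fun i hi => ?_
        rw [norm_smul, Complex.norm_real, Real.norm_of_nonneg (hp i hi)]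
        have := (hf i hi).1
        have := hp i hi
        nlinarith
      _ = 1 := hs
  · rw [_root_.sum_apply]
    have : ∀ i ∈ s, (((p i : ℝ) : ℂ) • f i) (1 : A) = ((p i : ℝ) : ℂ) := by
      intro i hi
      simp [(hf i hi).2]
    rw [Finset.sum_congr rfl this, ← Complex.ofReal_sum, hs]
    simp

end basic

section order

variable {A : Type*} [CStarAlgebra A]

lemma norm_one_le' : ‖(1 : A)‖ ≤ 1 := by
  rcases subsingleton_or_nontrivial A with h | h
  · rw [Subsingleton.elim (1 : A) 0]; simp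
  · rw [CStarRing.norm_one]

/-- `‖x + i t‖² ≤ ‖x‖² + t²` for self-adjoint `x` -/
lemma norm_sq_add_I_smul_le {x : A} (hx : IsSelfAdjoint x) (t : ℝ) :
    ‖x + ((t : ℂ) * Complex.I) • (1 : A)‖ ^ 2 ≤ ‖x‖ ^ 2 + t ^ 2 := by
  have h1 : star (x + ((t : ℂ) * Complex.I) • (1 : A)) * (x + ((t : ℂ) * Complex.I) • (1 : A))
      = star x * x + ((t : ℂ) ^ 2) • (1 : A) := by
    rw [star_add, star_smul, star_one, hx.star_eq]
    have hs : star ((t : ℂ) * Complex.I) = -((t : ℂ) * Complex.I) := by simp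
    rw [hs]
    have hI : -((t : ℂ) * Complex.I) * ((t : ℂ) * Complex.I) = (t : ℂ) ^ 2 := by
      ring_nf
      simp
    rw [add_mul, mul_add, mul_add, smul_mul_assoc, one_mul, mul_smul_comm, mul_one,
      smul_mul_smul_comm, one_mul, hI, neg_smul]
    abel
  rw [sq, ← CStarRing.norm_star_mul_self, h1]
  refine (norm_add_le _ _).trans ?_
  rw [CStarRing.norm_star_mul_self, norm_smul, ← sq]
  have h2 : ‖(1 : A)‖ ≤ 1 := norm_one_le' (A := A)
  have h3 : ‖((t : ℂ) ^ 2)‖ = t ^ 2 := by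
    rw [norm_pow, Complex.norm_real, Real.norm_eq_abs, sq_abs]
  rw [h3]
  nlinarith [sq_nonneg t]

/-- a norm one functional with `f 1 = 1` is real on self-adjoint elements -/
lemma St.im_eq_zero {f : StrongDual ℂ A} (hf : f ∈ St A) {x : A} (hx : IsSelfAdjoint x) :
    (f x).im = 0 := by
  have key : ∀ t : ℝ, ((f x).im + t) ^ 2 ≤ ‖x‖ ^ 2 + t ^ 2 := by
    intro t
    have h1 := norm_sq_add_I_smul_le hx t
    have h2 := St.norm_apply_le hf (x + ((t : ℂ) * Complex.I) • (1 : A))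
    have h3 : f (x + ((t : ℂ) * Complex.I) • (1 : A)) = f x + (t : ℂ) * Complex.I := by
      simp [hf.2]
    rw [h3] at h2
    have h4 : |(f x + (t : ℂ) * Complex.I).im| ≤ ‖f x + (t : ℂ) * Complex.I‖ :=
      Complex.abs_im_le_norm _
    have h5 : (f x + (t : ℂ) * Complex.I).im = (f x).im + t := by simp
    rw [h5] at h4
    have h6 : |(f x).im + t| ^ 2 ≤ ‖x + ((t : ℂ) * Complex.I) • (1 : A)‖ ^ 2 := by
      gcongr
      exact h4.trans h2
    rw [sq_abs] at h6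
    exact h6.trans h1
  by_contra hne
  have h := key ((‖x‖ ^ 2 + 1) / (2 * (f x).im))
  have h7 : ((f x).im + (‖x‖ ^ 2 + 1) / (2 * (f x).im)) ^ 2
      = (f x).im ^ 2 + (‖x‖ ^ 2 + 1) + ((‖x‖ ^ 2 + 1) / (2 * (f x).im)) ^ 2 := by
    field_simp
    ring
  rw [h7] at h
  nlinarith [sq_nonneg (f x).im]

variable [PartialOrder A] [StarOrderedRing A]

lemma norm_one_sub_le {x : A} (hx : 0 ≤ x) (hx1 : ‖x‖ ≤ 1) : ‖1 - x‖ ≤ 1 := by
  have h1 : x ≤ 1 := (CStarAlgebra.norm_le_one_iff_of_nonneg x hx).1 hx1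
  have h2 : 0 ≤ 1 - x := sub_nonneg.2 h1
  have h3 : 1 - x ≤ 1 := sub_le_self 1 hx
  exact (CStarAlgebra.norm_le_one_iff_of_nonneg (1 - x) h2).2 h3

/-- states are positive -/
lemma St.nonneg {f : StrongDual ℂ A} (hf : f ∈ St A) {x : A} (hx : 0 ≤ x) : 0 ≤ f x := by
  have him : (f x).im = 0 := St.im_eq_zero hf (IsSelfAdjoint.of_nonneg hx)
  rw [Complex.nonneg_iff]
  refine ⟨?_, him.symm⟩
  by_cases hx0 : ‖x‖ = 0
  · rw [norm_eq_zero] at hx0
    simp [hx0]
  · have hpos : 0 < ‖x‖ := lt_of_le_of_ne (norm_nonneg _) (Ne.symm hx0)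
    set y : A := ((‖x‖⁻¹ : ℝ) : ℂ) • x with hy
    have hy' : y = (‖x‖⁻¹ : ℝ) • x := by rw [hy]; exact Complex.coe_smul _ _
    have hy0 : 0 ≤ y := by
      rw [hy']
      exact smul_nonneg (by positivity) hx
    have hy1 : ‖y‖ ≤ 1 := by
      rw [hy', norm_smul, Real.norm_of_nonneg (by positivity)]
      rw [inv_mul_cancel₀ hx0]
    have h1 := St.norm_apply_le hf (1 - y)
    have h2 := norm_one_sub_le hy0 hy1
    have h3 : f (1 - y) = 1 - ((‖x‖⁻¹ : ℝ) : ℂ) * f x := by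
      rw [map_sub, hf.2, hy, map_smul, smul_eq_mul]
    rw [h3] at h1
    have h4 := Complex.abs_re_le_norm (1 - ((‖x‖⁻¹ : ℝ) : ℂ) * f x)
    have h5 : (1 - ((‖x‖⁻¹ : ℝ) : ℂ) * f x).re = 1 - ‖x‖⁻¹ * (f x).re := by
      simp
    rw [h5] at h4
    have h6 : 1 - ‖x‖⁻¹ * (f x).re ≤ 1 := (le_abs_self _).trans (h4.trans (h1.trans h2))
    have h7 : 0 ≤ ‖x‖⁻¹ * (f x).re := by linarith
    have h8 : 0 ≤ ‖x‖ * (‖x‖⁻¹ * (f x).re) := mul_nonneg hpos.le h7
    rwa [← mul_assoc, mul_inv_cancel₀ hx0, one_mul] at h8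

lemma norm_one_add [Nontrivial A] {h : A} (hh : 0 ≤ h) : ‖1 + h‖ = 1 + ‖h‖ := by
  apply le_antisymm
  · refine (norm_add_le _ _).trans ?_
    rw [CStarRing.norm_one]
  · have hmem : ‖h‖ ∈ spectrum ℝ h := CStarAlgebra.norm_mem_spectrum_of_nonneg hh
    have h2 : (1 + ‖h‖) ∈ spectrum ℝ (1 + h) := by
      have := spectrum.add_mem_add_iff (R := ℝ) (a := h) (r := ‖h‖) (s := (1 : ℝ))
      have h3 := this.2 hmem
      simpa [add_comm] using h3
    have h4 := spectrum.norm_le_norm_of_mem h2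
    rwa [Real.norm_of_nonneg (by positivity)] at h4

/-- norming states -/
lemma exists_norming [Nontrivial A] (x : A) :
    ∃ f ∈ St A, f (star x * x) = ((‖x‖ ^ 2 : ℝ) : ℂ) := by
  set h : A := star x * x with hh
  have hpos : 0 ≤ h := star_mul_self_nonneg x
  obtain ⟨g, hg1, hg2⟩ := exists_dual_vector'' ℂ (1 + h)
  rw [norm_one_add hpos, map_add] at hg2
  have hA : ‖g 1‖ ≤ 1 := by
    have := g.le_opNorm (1 : A)
    rw [CStarRing.norm_one, mul_one] at this
    exact this.trans hg1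
  have hB : ‖g h‖ ≤ ‖h‖ := by
    have := g.le_opNorm h
    have h2 : ‖g‖ * ‖h‖ ≤ 1 * ‖h‖ := by gcongr
    linarith
  have hre : (g 1).re + (g h).re = 1 + ‖h‖ := by
    have := congrArg Complex.re hg2
    simpa using this
  have hA' := Complex.re_le_norm (g 1)
  have hB' := Complex.re_le_norm (g h)
  have e1 : (g 1).re = 1 := by linarith
  have e2 : (g h).re = ‖h‖ := by linarith
  have e1' : g 1 = 1 := by
    have h9 : ‖g 1‖ = (g 1).re := by linarith
    have h10 : (g 1) = ((g 1).re : ℂ) := by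
      have := (Complex.re_eq_norm.1 h9.symm)
      rw [Complex.nonneg_iff] at this
      apply Complex.ext
      · simp
      · simp [← this.2]
    rw [h10, e1]; simp
  have e2' : g h = ((‖h‖ : ℝ) : ℂ) := by
    have h9 : ‖g h‖ = (g h).re := by linarith
    have h10 : (g h) = ((g h).re : ℂ) := by
      have := (Complex.re_eq_norm.1 h9.symm)
      rw [Complex.nonneg_iff] at this
      apply Complex.ext
      · simp
      · simp [← this.2]
    rw [h10, e2]
  refine ⟨g, ⟨hg1, e1'⟩, ?_⟩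
  rw [e2', hh, CStarRing.norm_star_mul_self, sq]

end order

end Pool.Agent.W39.Nuc
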