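import Mathlib
import Pool.Agent.W39.Nuc.States
import Pool.Agent.W39.Nuc.Det

set_option autoImplicit false

open scoped ComplexOrder MatrixOrder
open Matrix

namespace Pool.Agent.W39.Nuc

variable {A : Type*} [CStarAlgebra A] [PartialOrder A] [StarOrderedRing A]

/-- the positive map attached to a state -/
noncomputable def St.toPos {f : StrongDual ℂ A} (hf : f ∈ St A) : A →ₚ[ℂ] ℂ :=
  PositiveLinearMap.mk₀ f.toLinearMap (fun _ hx => St.nonneg hf hx)

@[simp] lemma St.toPos_apply {f : StrongDual ℂ A} (hf : f ∈ St A) (x : A) :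
    St.toPos hf x = f x := rfl

section gram

variable {n : Type*}

/-- Gram matrix of a family with respect to a positive functional -/
noncomputable def gram (f : A →ₚ[ℂ] ℂ) (b : n → A) : Matrix n n ℂ := Matrix.of fun i j => f (star (b i) * b j)

lemma gram_isHermitian (f : A →ₚ[ℂ] ℂ) (b : n → A) : (gram f b).IsHermitian := by
  ext i j
  simp only [gram, conjTranspose_apply, of_apply]
  rw [← map_star f]
  simp

variable [Fintype n]

omit [StarOrderedRing A] in
lemma gram_quad (f : A →ₚ[ℂ] ℂ) (b : n → A) (v : n → ℂ) :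
    star v ⬝ᵥ gram f b *ᵥ v = f (star (∑ i, v i • b i) * ∑ i, v i • b i) := by
  rw [star_sum, Finset.sum_mul_sum, map_sum]
  simp only [dotProduct, mulVec, gram, of_apply, Pi.star_apply]
  refine Finset.sum_congr rfl fun i _ => ?_
  rw [map_sum, Finset.mul_sum]
  refine Finset.sum_congr rfl fun j _ => ?_
  rw [star_smul, smul_mul_smul_comm, map_smul, smul_eq_mul]
  ring

lemma gram_posSemidef (f : A →ₚ[ℂ] ℂ) (b : n → A) : (gram f b).PosSemidef := by
  refine PosSemidef.of_dotProduct_mulVec_nonneg (gram_isHermitian f b) fun v => ?_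
  rw [gram_quad]
  exact f.map_nonneg (star_mul_self_nonneg _)

end gram

omit [PartialOrder A] [StarOrderedRing A] in
lemma coord_bound (E : Submodule ℂ A) [FiniteDimensional ℂ E] {n : Type*} [Fintype n]
    (b : Module.Basis n ℂ E) :
    ∃ C : ℝ, 0 < C ∧ ∀ x : E, ∑ i, ‖b.repr x i‖ ^ 2 ≤ C * ‖x‖ ^ 2 := by
  set T : E →L[ℂ] (n → ℂ) := LinearMap.toContinuousLinearMap (b.equivFun : E →ₗ[ℂ] (n → ℂ))
    with hT
  refine ⟨(Fintype.card n : ℝ) * ‖T‖ ^ 2 + 1, by positivity, fun x => ?_⟩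
  have h1 : ∀ i, ‖b.repr x i‖ ^ 2 ≤ ‖T‖ ^ 2 * ‖x‖ ^ 2 := by
    intro i
    have h2 : ‖b.repr x i‖ ≤ ‖T x‖ := norm_le_pi_norm (T x) i
    have h3 := T.le_opNorm x
    rw [← mul_pow]
    gcongr
    exact h2.trans h3
  calc ∑ i, ‖b.repr x i‖ ^ 2 ≤ ∑ _i : n, ‖T‖ ^ 2 * ‖x‖ ^ 2 := Finset.sum_le_sum fun i _ => h1 i
    _ = (Fintype.card n : ℝ) * ‖T‖ ^ 2 * ‖x‖ ^ 2 := by
      rw [Finset.sum_const, Finset.card_univ, nsmul_eq_mul]; ring
    _ ≤ _ := by nlinarith [sq_nonneg ‖x‖]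

lemma one_add_inv_pow_le (d : ℕ) (hd : 1 ≤ d) : (1 + 1 / (d : ℝ)) ^ d ≤ 3 := by
  have hd' : (0 : ℝ) < d := by exact_mod_cast hd
  have h1 : (1 + 1 / (d : ℝ)) ≤ Real.exp (1 / d) := by
    have := Real.add_one_le_exp (1 / (d : ℝ))
    linarith
  calc (1 + 1 / (d : ℝ)) ^ d ≤ (Real.exp (1 / d)) ^ d := by
        gcongr
    _ = Real.exp 1 := by
      rw [← Real.exp_nat_mul]
      congr 1
      field_simp
    _ ≤ 3 := by
      have := Real.exp_one_lt_d9
      linarith

/-- the key lemma: on a `d`-dimensional subspace the norm is dominated by a single state, with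
a constant linear in `d` -/
theorem exists_good_state [Nontrivial A] (E : Submodule ℂ A) [FiniteDimensional ℂ E] {d : ℕ}
    (hd : Module.finrank ℂ E = d) (hd1 : 1 ≤ d) :
    ∃ f ∈ St A, ∀ x ∈ E, ‖x‖ ^ 2 ≤ 10 * d * (f (star x * x)).re := by
  classical
  have hdpos : (0 : ℝ) < d := by exact_mod_cast hd1
  set b : Module.Basis (Fin d) ℂ E := Module.finBasisOfFinrankEq ℂ E hd with hb
  obtain ⟨C, hC, hCb⟩ := coord_bound E b
  set δ : ℝ := 1 / (10 * d * C) with hδ
  have hδpos : 0 < δ := by positivity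
  set bb : Fin d → A := fun i => (b i : A) with hbb
  -- the regularised gram matrix
  let M : StrongDual ℂ A → Matrix (Fin d) (Fin d) ℂ := fun f =>
    (Matrix.of fun i j => f (star (bb i) * bb j)) + (δ : ℂ) • (1 : Matrix (Fin d) (Fin d) ℂ)
  have hMgram : ∀ (f : StrongDual ℂ A) (hf : f ∈ St A),
      M f = gram (St.toPos hf) bb + (δ : ℂ) • (1 : Matrix (Fin d) (Fin d) ℂ) := by
    intro f hf; rfl
  have hMpos : ∀ f ∈ St A, (M f).PosDef := by
    intro f hf
    rw [hMgram f hf]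
    refine PosDef.posSemidef_add (gram_posSemidef _ _) ?_
    exact PosDef.smul PosDef.one (by exact_mod_cast hδpos)
  -- bounded determinants
  obtain ⟨Bd, hBd⟩ : ∃ Bd : ℝ, ∀ f ∈ St A, ((M f).det).re ≤ Bd := by
    set X : ℝ := (∑ i, ∑ j, ‖star (bb i) * bb j‖) + δ with hX
    refine ⟨(Fintype.card (Fin d)).factorial • X ^ (Fintype.card (Fin d)), fun f hf => ?_⟩
    have hent : ∀ i j, (IsAbsoluteValue.toAbsoluteValue (fun z : ℂ => ‖z‖)) (M f i j) ≤ X := by
      intro i j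
      change ‖M f i j‖ ≤ X
      have h1 : M f i j = f (star (bb i) * bb j) + (δ : ℂ) * (1 : Matrix (Fin d) (Fin d) ℂ) i j :=
        rfl
      rw [h1]
      refine (norm_add_le _ _).trans ?_
      rw [hX]
      refine add_le_add ?_ ?_
      · refine (St.norm_apply_le hf _).trans ?_
        calc ‖star (bb i) * bb j‖ ≤ ∑ j, ‖star (bb i) * bb j‖ :=
              Finset.single_le_sum (f := fun j => ‖star (bb i) * bb j‖)
                (fun _ _ => norm_nonneg _) (Finset.mem_univ j)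
          _ ≤ _ := Finset.single_le_sum (f := fun i => ∑ j, ‖star (bb i) * bb j‖)
                (fun _ _ => Finset.sum_nonneg fun _ _ => norm_nonneg _) (Finset.mem_univ i)
      · rw [norm_mul, Complex.norm_real, Real.norm_of_nonneg hδpos.le]
        by_cases hij : i = j
        · subst hij; simp
        · simp [hij, hδpos.le]
    have h2 := Matrix.det_le hent
    have h3 : ((M f).det).re ≤ ‖(M f).det‖ := Complex.re_le_norm _
    exact h3.trans h2
  set S : Set ℝ := {r | ∃ f ∈ St A, r = ((M f).det).re} with hS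
  have hSbdd : BddAbove S := ⟨Bd, by rintro r ⟨f, hf, rfl⟩; exact hBd f hf⟩
  obtain ⟨f₀, hf₀, -⟩ := exists_norming (1 : A)
  have hSne : S.Nonempty := ⟨_, f₀, hf₀, rfl⟩
  have hdetpos : ∀ f ∈ St A, 0 < ((M f).det).re := fun f hf =>
    (Complex.lt_def.1 (hMpos f hf).det_pos).1
  have hsup : 0 < sSup S := lt_of_lt_of_le (hdetpos f₀ hf₀) (le_csSup hSbdd ⟨f₀, hf₀, rfl⟩)
  obtain ⟨r, ⟨f, hf, rfl⟩, hr⟩ := exists_lt_of_lt_csSup hSne (show sSup S / 2 < sSup S by linarith)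
  have hmax : ∀ g ∈ St A, ((M g).det).re ≤ 2 * ((M f).det).re := by
    intro g hg
    have := le_csSup hSbdd ⟨g, hg, rfl⟩
    linarith
  refine ⟨f, hf, fun x hx => ?_⟩
  obtain ⟨g, hg, hgx⟩ := exists_norming x
  -- the perturbed state
  set t : ℝ := 1 / (d + 1) with ht
  have ht0 : 0 ≤ t := by positivity
  have ht1 : t ≤ 1 := by
    rw [ht, div_le_one (by positivity)]; linarith
  have h1t : 1 - t = d / (d + 1) := by rw [ht]; field_simp; ring
  have h1tpos : 0 < 1 - t := by rw [h1t]; positivity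
  have hcomb := St.convex_comb hf hg ht0 ht1
  have hMcomb : M (((1 - t : ℝ) : ℂ) • f + (t : ℂ) • g)
      = ((1 - t : ℝ) : ℂ) • (M f + ((1 / d : ℝ) : ℂ) • M g) := by
    have hcoef : ((1 - t : ℝ) : ℂ) * ((1 / d : ℝ) : ℂ) = (t : ℂ) := by
      rw [← Complex.ofReal_mul]
      congr 1
      rw [h1t, ht]
      field_simp
    have hcoef2 : (δ : ℂ) = ((1 - t : ℝ) : ℂ) * (δ : ℂ) + (t : ℂ) * (δ : ℂ) := by
      push_cast; ring
    rw [smul_add, smul_smul, hcoef]
    ext i j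
    simp only [M, Matrix.add_apply, Matrix.smul_apply, of_apply, _root_.add_apply,
      _root_.smul_apply, smul_eq_mul]
    linear_combination ((1 : Matrix (Fin d) (Fin d) ℂ) i j) * hcoef2
  have hG : (((1 / d : ℝ) : ℂ) • M g).PosSemidef :=
    PosSemidef.smul (hMpos g hg).posSemidef (by
      have : (0 : ℝ) ≤ 1 / d := by positivity
      exact_mod_cast this)
  have hdetcomb : (M (((1 - t : ℝ) : ℂ) • f + (t : ℂ) • g)).det.re
      = (1 - t) ^ d * (M f + ((1 / d : ℝ) : ℂ) • M g).det.re := by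
    rw [hMcomb, det_smul, Fintype.card_fin, ← Complex.ofReal_pow, Complex.re_ofReal_mul]
  have hle := hmax _ hcomb
  rw [hdetcomb] at hle
  have hpow : (1 - t) ^ d * 3 ≥ 1 := by
    have h3 := one_add_inv_pow_le d hd1
    have h4 : (1 - t) ^ d * (1 + 1 / (d : ℝ)) ^ d = 1 := by
      rw [← mul_pow, h1t]
      have : (d : ℝ) / (d + 1) * (1 + 1 / d) = 1 := by field_simp
      rw [this, one_pow]
    have h5 : (0 : ℝ) ≤ (1 - t) ^ d := by positivity
    nlinarith
  have hbound : (M f + ((1 / d : ℝ) : ℂ) • M g).det.re ≤ 6 * ((M f).det).re := by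
    have h6 : 0 < (M f + ((1 / d : ℝ) : ℂ) • M g).det.re :=
      (Complex.lt_def.1 ((hMpos f hf).add_posSemidef hG).det_pos).1
    nlinarith
  -- apply the determinant inequality
  set v : Fin d → ℂ := fun i => b.repr ⟨x, hx⟩ i with hv
  have hxv : ∑ i, v i • bb i = x := by
    have := b.sum_repr ⟨x, hx⟩
    have h7 := congrArg (Submodule.subtype E) this
    rw [map_sum] at h7
    simpa using h7
  have hquad : ∀ (g : StrongDual ℂ A) (_ : g ∈ St A),
      (star v ⬝ᵥ M g *ᵥ v).re = (g (star x * x)).re + δ * ∑ i, ‖v i‖ ^ 2 := by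
    intro g hg
    rw [hMgram g hg, add_mulVec, dotProduct_add, gram_quad, hxv, smul_mulVec, one_mulVec,
      dotProduct_smul, Complex.add_re, St.toPos_apply]
    congr 1
    have h8 : star v ⬝ᵥ v = ((∑ i, ‖v i‖ ^ 2 : ℝ) : ℂ) := by
      rw [dotProduct, Complex.ofReal_sum]
      refine Finset.sum_congr rfl fun i _ => ?_
      rw [Pi.star_apply, RCLike.star_def, Complex.conj_mul']
      push_cast
      rfl
    rw [h8, smul_eq_mul, ← Complex.ofReal_mul, Complex.ofReal_re]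
  have hD := det_mul_quad_le (hMpos f hf) hG v
  rw [add_mulVec, dotProduct_add, smul_mulVec, dotProduct_smul, Complex.add_re, smul_eq_mul,
    Complex.re_ofReal_mul, hquad f hf, hquad g hg] at hD
  have hfdet := hdetpos f hf
  have hgx' : (g (star x * x)).re = ‖x‖ ^ 2 := by rw [hgx, Complex.ofReal_re]
  rw [hgx'] at hD
  have hcb : ∑ i, ‖v i‖ ^ 2 ≤ C * ‖x‖ ^ 2 := hCb ⟨x, hx⟩
  have hfnn : 0 ≤ (f (star x * x)).re :=
    (Complex.nonneg_iff.1 (St.nonneg hf (star_mul_self_nonneg x))).1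
  set Sg : ℝ := ∑ i, ‖v i‖ ^ 2 with hSg
  have hSg0 : 0 ≤ Sg := Finset.sum_nonneg fun _ _ => by positivity
  set F : ℝ := (f (star x * x)).re with hF
  set Dm : ℝ := ((M f).det).re with hDm
  have hq0 : 0 ≤ F + δ * Sg := by positivity
  have h9 : Dm * (F + δ * Sg + 1 / d * (‖x‖ ^ 2 + δ * Sg)) ≤ Dm * (6 * (F + δ * Sg)) := by
    calc _ ≤ _ := hD
      _ ≤ 6 * Dm * (F + δ * Sg) := by gcongr
      _ = _ := by ring
  have h10 := le_of_mul_le_mul_left h9 hfdet
  have h11 : 1 / d * (‖x‖ ^ 2 + δ * Sg) ≤ 5 * (F + δ * Sg) := by linarith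
  have h12 : ‖x‖ ^ 2 + δ * Sg ≤ 5 * d * (F + δ * Sg) := by
    have : (d : ℝ) * (1 / d * (‖x‖ ^ 2 + δ * Sg)) ≤ d * (5 * (F + δ * Sg)) := by gcongr
    have h13 : (d : ℝ) * (1 / d * (‖x‖ ^ 2 + δ * Sg)) = ‖x‖ ^ 2 + δ * Sg := by
      field_simp
    rw [h13] at this
    linarith
  have h14 : 5 * d * (δ * Sg) ≤ ‖x‖ ^ 2 / 2 := by
    calc 5 * d * (δ * Sg) ≤ 5 * d * (δ * (C * ‖x‖ ^ 2)) := by gcongr
      _ = ‖x‖ ^ 2 / 2 := by rw [hδ]; field_simp; ring
  have h15 : 0 ≤ δ * Sg := by positivity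
  nlinarith

end Pool.Agent.W39.Nuc
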