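import Mathlib
import Pool.Agent.W39.Nuc.Good

set_option autoImplicit false

open scoped ComplexOrder MatrixOrder Matrix.Norms.L2Operator
open Matrix

namespace Pool.Agent.W39.Nuc

section norms

variable {I : Type*} [Fintype I] [DecidableEq I]

lemma l2_norm_le (M : Matrix I I ℂ) {c : ℝ} (hc : 0 ≤ c)
    (h : ∀ v : I → ℂ, ∑ i, ‖(M *ᵥ v) i‖ ^ 2 ≤ c ^ 2 * ∑ i, ‖v i‖ ^ 2) : ‖M‖ ≤ c := by
  rw [cstar_norm_def]
  refine ContinuousLinearMap.opNorm_le_bound _ hc fun x => ?_
  refine (sq_le_sq₀ (norm_nonneg _) (by positivity)).1 ?_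
  rw [mul_pow, EuclideanSpace.norm_sq_eq, EuclideanSpace.norm_sq_eq]
  exact h (WithLp.ofLp x)

lemma l2_mulVec_le (M : Matrix I I ℂ) (v : I → ℂ) :
    ∑ i, ‖(M *ᵥ v) i‖ ^ 2 ≤ ‖M‖ ^ 2 * ∑ i, ‖v i‖ ^ 2 := by
  have h := (toEuclideanCLM (n := I) (𝕜 := ℂ) M).le_opNorm (WithLp.toLp 2 v)
  have h2 := (sq_le_sq₀ (norm_nonneg _) (by positivity)).2 h
  rw [mul_pow, EuclideanSpace.norm_sq_eq, EuclideanSpace.norm_sq_eq] at h2
  exact h2

end norms

variable {A : Type*} [CStarAlgebra A] [PartialOrder A] [StarOrderedRing A]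

lemma re_nonneg (f : A →ₚ[ℂ] ℂ) (z : A) : 0 ≤ (f (star z * z)).re :=
  (Complex.nonneg_iff.1 (f.map_nonneg (star_mul_self_nonneg z))).1

lemma f_mul_le (f : A →ₚ[ℂ] ℂ) (a y : A) :
    (f (star (a * y) * (a * y))).re ≤ ‖a‖ ^ 2 * (f (star y * y)).re := by
  have h1 : star (a * y) * (a * y) ≤ ‖a‖ ^ 2 • (star y * y) := by
    rw [star_mul, mul_assoc, ← mul_assoc (star a), ← mul_assoc, sq, ← CStarRing.norm_star_mul_self]
    exact CStarAlgebra.star_left_conjugate_le_norm_smul
  have h2 := OrderHomClass.mono f h1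
  rw [f.map_smul_of_tower] at h2
  have h3 := (Complex.le_def.1 h2).1
  rwa [Complex.real_smul, Complex.re_ofReal_mul] at h3

variable {I : Type*} [Fintype I] [DecidableEq I]

/-- Bessel inequality -/
lemma bessel (f : A →ₚ[ℂ] ℂ) (e : I → A)
    (he : ∀ i j, f (star (e i) * e j) = if i = j then 1 else 0) (z : A) :
    ∑ i, ‖f (star (e i) * z)‖ ^ 2 ≤ (f (star z * z)).re := by
  have ho : Orthonormal ℂ (fun i => f.toPreGNS (e i)) := by
    rw [orthonormal_iff_ite]
    intro i j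
    exact he i j
  have h := ho.sum_inner_products_le (x := f.toPreGNS z) (s := Finset.univ)
  have h2 : ‖f.toPreGNS z‖ ^ 2 = (f (star z * z)).re := by
    have := f.preGNS_norm_sq (f.toPreGNS z)
    have h3 := congrArg Complex.re this
    rw [← Complex.ofReal_pow, Complex.ofReal_re] at h3
    exact h3
  rw [h2] at h
  exact h

omit [StarOrderedRing A] [DecidableEq I] in
lemma f_sum_sq (f : A →ₚ[ℂ] ℂ) (e : I → A) [DecidableEq I]
    (he : ∀ i j, f (star (e i) * e j) = if i = j then 1 else 0) (v : I → ℂ) :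
    f (star (∑ i, v i • e i) * ∑ i, v i • e i) = ((∑ i, ‖v i‖ ^ 2 : ℝ) : ℂ) := by
  rw [← gram_quad]
  have : gram f e = 1 := by
    ext i j
    simp only [gram, of_apply, he, Matrix.one_apply]
  rw [this, one_mulVec, dotProduct, Complex.ofReal_sum]
  refine Finset.sum_congr rfl fun i _ => ?_
  rw [Pi.star_apply, RCLike.star_def, Complex.conj_mul']
  push_cast
  rfl

/-- the compression map -/
noncomputable def phiM (f : A →ₚ[ℂ] ℂ) (e : I → A) : A →ₗ[ℂ] Matrix I I ℂ where
  toFun a := Matrix.of fun i j => f (star (e i) * a * e j)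
  map_add' a b := by
    ext i j
    simp [mul_add, add_mul]
  map_smul' c a := by
    ext i j
    simp [smul_mul_assoc]

omit [StarOrderedRing A] [Fintype I] [DecidableEq I] in
@[simp] lemma phiM_apply (f : A →ₚ[ℂ] ℂ) (e : I → A) (a : A) (i j : I) :
    phiM f e a i j = f (star (e i) * a * e j) := rfl

lemma phiM_norm_le (f : A →ₚ[ℂ] ℂ) (e : I → A)
    (he : ∀ i j, f (star (e i) * e j) = if i = j then 1 else 0) (a : A) :
    ‖phiM f e a‖ ≤ ‖a‖ := by
  refine l2_norm_le _ (norm_nonneg a) fun v => ?_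
  set y : A := ∑ j, v j • e j with hy
  have h1 : ∀ i, (phiM f e a *ᵥ v) i = f (star (e i) * (a * y)) := by
    intro i
    rw [hy, mulVec, dotProduct, Finset.mul_sum, Finset.mul_sum, map_sum]
    refine Finset.sum_congr rfl fun j _ => ?_
    rw [phiM_apply, mul_smul_comm, mul_smul_comm, map_smul, smul_eq_mul, mul_assoc, mul_comm]
  simp only [h1]
  refine (bessel f e he (a * y)).trans ((f_mul_le f a y).trans ?_)
  rw [hy, f_sum_sq f e he v, Complex.ofReal_re]

/-- complete positivity of the compression -/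
lemma phiM_cp (f : A →ₚ[ℂ] ℂ) (e : I → A) (n : ℕ) (y : Matrix (Fin n) (Fin n) A) :
    ∃ z : Matrix (Fin n) (Fin n) (Matrix I I ℂ),
      (y.conjTranspose * y).map (phiM f e) = z.conjTranspose * z := by
  set G : Matrix (Fin n × I) (Fin n × I) ℂ :=
    ∑ r : Fin n, gram f (fun p : Fin n × I => y r p.1 * e p.2) with hG
  have hGps : G.PosSemidef := posSemidef_sum _ fun r _ => gram_posSemidef _ _
  obtain ⟨C, hC⟩ := CStarAlgebra.nonneg_iff_eq_star_mul_self.mp hGps.nonneg
  refine ⟨Matrix.of fun r q => Matrix.of fun l j => C (r, l) (q, j), ?_⟩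
  ext p q i j
  have h1 : G (p, i) (q, j) = ∑ r, f (star (y r p * e i) * (y r q * e j)) := by
    rw [hG, Matrix.sum_apply]
    rfl
  have h2 : G (p, i) (q, j) = ∑ r, ∑ l, star (C (r, l) (p, i)) * C (r, l) (q, j) := by
    rw [hC, star_eq_conjTranspose, Matrix.mul_apply, Fintype.sum_prod_type]
    rfl
  have h3 : ((y.conjTranspose * y).map (phiM f e)) p q i j
      = ∑ r, f (star (y r p * e i) * (y r q * e j)) := by
    rw [Matrix.map_apply, phiM_apply, Matrix.mul_apply, Finset.mul_sum, Finset.sum_mul, map_sum]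
    refine Finset.sum_congr rfl fun r _ => ?_
    rw [conjTranspose_apply, star_mul]
    congr 1
    simp only [mul_assoc]
  rw [h3, ← h1, h2, Matrix.mul_apply, Matrix.sum_apply]
  refine Finset.sum_congr rfl fun r _ => ?_
  rw [Matrix.mul_apply]
  refine Finset.sum_congr rfl fun l _ => ?_
  rw [conjTranspose_apply, star_eq_conjTranspose, conjTranspose_apply]
  rfl

end Pool.Agent.W39.Nuc
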