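import Mathlib
import Pool.Agent.W39.Nuc.Phi

set_option autoImplicit false

open scoped ComplexOrder MatrixOrder Matrix.Norms.L2Operator
open Matrix

namespace Pool.Agent.W39.Nuc

variable {I : Type*} [Fintype I] [DecidableEq I]

lemma entry_norm_le (M : Matrix I I ℂ) (i j : I) : ‖M i j‖ ≤ ‖M‖ := by
  have h := l2_mulVec_le M (Pi.single j 1)
  have h1 : ∑ l, ‖(Pi.single j 1 : I → ℂ) l‖ ^ 2 = 1 := by
    rw [Finset.sum_eq_single j]
    · simp
    · intro b _ hb; simp [hb]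
    · simp
  rw [h1, mul_one] at h
  have h2 : ‖(M *ᵥ Pi.single j 1) i‖ ^ 2 ≤ ∑ l, ‖(M *ᵥ Pi.single j 1) l‖ ^ 2 :=
    Finset.single_le_sum (f := fun l => ‖(M *ᵥ Pi.single j 1) l‖ ^ 2)
      (fun _ _ => by positivity) (Finset.mem_univ i)
  rw [mulVec_single_one] at h2
  exact (sq_le_sq₀ (norm_nonneg _) (norm_nonneg _)).1 (h2.trans (by rwa [mulVec_single_one] at h))

/-- norms of block parts -/
lemma block_norm_le {Λ : Type*} [DecidableEq Λ] (lev σ : I → Λ) (M : Matrix I I ℂ) :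
    ‖(Matrix.of fun i j => if lev j = σ i then M i j else 0 : Matrix I I ℂ)‖ ≤ ‖M‖ := by
  refine l2_norm_le _ (norm_nonneg _) fun v => ?_
  let P : Λ → I → ℂ := fun l j => if lev j = l then v j else 0
  set S : Finset Λ := Finset.univ.image σ with hS
  have h1 : ∀ i, ((Matrix.of fun i j => if lev j = σ i then M i j else 0 : Matrix I I ℂ) *ᵥ v) i
      = (M *ᵥ P (σ i)) i := by
    intro i
    simp only [mulVec, dotProduct, of_apply, P]
    refine Finset.sum_congr rfl fun j _ => ?_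
    by_cases h : lev j = σ i <;> simp [h]
  simp only [h1]
  calc ∑ i, ‖(M *ᵥ P (σ i)) i‖ ^ 2 ≤ ∑ i, ∑ l ∈ S, ‖(M *ᵥ P l) i‖ ^ 2 := by
        refine Finset.sum_le_sum fun i _ => ?_
        exact Finset.single_le_sum (f := fun l => ‖(M *ᵥ P l) i‖ ^ 2)
          (fun _ _ => by positivity) (Finset.mem_image_of_mem σ (Finset.mem_univ i))
    _ = ∑ l ∈ S, ∑ i, ‖(M *ᵥ P l) i‖ ^ 2 := Finset.sum_comm
    _ ≤ ∑ l ∈ S, ‖M‖ ^ 2 * ∑ j, ‖P l j‖ ^ 2 := Finset.sum_le_sum fun l _ => l2_mulVec_le M _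
    _ = ‖M‖ ^ 2 * ∑ j, ∑ l ∈ S, ‖P l j‖ ^ 2 := by rw [← Finset.mul_sum, Finset.sum_comm]
    _ ≤ ‖M‖ ^ 2 * ∑ j, ‖v j‖ ^ 2 := by
      gcongr with j _
      have h2 : ∀ l, ‖P l j‖ ^ 2 = if lev j = l then ‖v j‖ ^ 2 else 0 := by
        intro l
        simp only [P]
        by_cases h : lev j = l <;> simp [h]
      simp only [h2]
      rw [Finset.sum_ite_eq]
      split_ifs
      · exact le_rfl
      · positivity

/-- the band modulus -/
noncomputable def bandMod (n : ℕ) (μ : ℝ) : ℝ :=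
  ∑ s ∈ Finset.Icc (-(n : ℤ)) n, |μ ^ s + μ ^ (-s) - 2|

/-- the difference matrix -/
noncomputable def Bmat (μ : ℝ) (lev : I → ℕ) (M : Matrix I I ℂ) : Matrix I I ℂ :=
  Matrix.of fun i j => (((μ ^ lev i - μ ^ lev j) ^ 2 / (μ ^ lev i * μ ^ lev j) : ℝ) : ℂ) * M i j

lemma Bmat_norm_le {μ : ℝ} (hμ : 0 < μ) (lev : I → ℕ) (M : Matrix I I ℂ) (n : ℕ)
    (hM : ∀ i j, lev i + n < lev j ∨ lev j + n < lev i → M i j = 0) :
    ‖Bmat μ lev M‖ ≤ bandMod n μ * ‖M‖ := by
  have h1 : Bmat μ lev M = ∑ s ∈ Finset.Icc (-(n : ℤ)) n, ((μ ^ s + μ ^ (-s) - 2 : ℝ) : ℂ) •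
      (Matrix.of fun i j => if (lev j : ℤ) = (lev i : ℤ) + s then M i j else 0 :
        Matrix I I ℂ) := by
    ext i j
    rw [Matrix.sum_apply]
    simp only [Matrix.smul_apply, of_apply, smul_eq_mul, Bmat, mul_ite, mul_zero]
    by_cases hb : lev i + n < lev j ∨ lev j + n < lev i
    · rw [hM i j hb, mul_zero]
      symm
      refine Finset.sum_eq_zero fun s _ => ?_
      simp
    · push Not at hb
      obtain ⟨hb1, hb2⟩ := hb
      rw [Finset.sum_eq_single ((lev j : ℤ) - lev i)]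
      · rw [if_pos (by ring)]
        congr 2
        have hi : μ ^ lev i ≠ 0 := by positivity
        have hj : μ ^ lev j ≠ 0 := by positivity
        rw [neg_sub, zpow_sub₀ hμ.ne', zpow_sub₀ hμ.ne', zpow_natCast, zpow_natCast]
        field_simp
        ring
      · intro s _ hs
        rw [if_neg]
        intro h
        apply hs
        omega
      · intro h
        exfalso
        apply h
        rw [Finset.mem_Icc]
        omega
  rw [h1]
  refine (norm_sum_le _ _).trans ?_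
  rw [bandMod, Finset.sum_mul]
  refine Finset.sum_le_sum fun s _ => ?_
  rw [norm_smul, Complex.norm_real, Real.norm_eq_abs]
  gcongr
  exact block_norm_le (fun j => (lev j : ℤ)) (fun i => (lev i : ℤ) + s) M

lemma bandMod_tendsto (n : ℕ) : Filter.Tendsto (bandMod n) (nhds 1) (nhds 0) := by
  have h0 : (0 : ℝ) = ∑ s ∈ Finset.Icc (-(n : ℤ)) n, |(1 : ℝ) ^ s + (1 : ℝ) ^ (-s) - 2| := by
    symm
    refine Finset.sum_eq_zero fun s _ => ?_
    norm_num
  rw [h0]
  refine tendsto_finsetSum _ fun s _ => ?_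
  have h1 : ContinuousAt (fun μ : ℝ => |μ ^ s + μ ^ (-s) - 2|) 1 := by
    refine ContinuousAt.abs ?_
    refine ContinuousAt.sub (ContinuousAt.add ?_ ?_) continuousAt_const
    · exact continuousAt_zpow₀ _ _ (Or.inl one_ne_zero)
    · exact continuousAt_zpow₀ _ _ (Or.inl one_ne_zero)
  exact h1

end Pool.Agent.W39.Nuc
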