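import Mathlib
import Pool.Agent.W39.Nuc.Good

set_option autoImplicit false

open scoped ComplexOrder MatrixOrder
open Matrix

namespace Pool.Agent.W39.Nuc

lemma sum_inv_sq_le (m : ℕ) : ∑ j ∈ Finset.range (m + 1), 1 / ((j : ℝ) + 1) ^ 2
    ≤ 2 - 1 / ((m : ℝ) + 1) := by
  induction m with
  | zero => norm_num
  | succ m ih =>
    rw [Finset.sum_range_succ]
    refine (add_le_add_left ih _).trans ?_
    have hm : (0 : ℝ) ≤ m := Nat.cast_nonneg m
    have h1 : 1 / ((m : ℝ) + 1) - 1 / ((m : ℝ) + 1 + 1) - 1 / (((m : ℝ) + 1) + 1) ^ 2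
        = 1 / (((m : ℝ) + 1) * ((m : ℝ) + 1 + 1) ^ 2) := by
      field_simp
      ring
    have h2 : 0 ≤ 1 / (((m : ℝ) + 1) * ((m : ℝ) + 1 + 1) ^ 2) := by positivity
    push_cast
    linarith

variable {A : Type*} [CStarAlgebra A] [PartialOrder A] [StarOrderedRing A]

/-- one state that is good for all levels up to `m` at once -/
theorem exists_state_seq [Nontrivial A] (F : ℕ → Submodule ℂ A)
    [∀ n, FiniteDimensional ℂ (F n)] (h1 : ∀ n, (1 : A) ∈ F n) (m : ℕ) :
    ∃ f ∈ St A, ∀ j ≤ m, ∀ x ∈ F j,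
      ‖x‖ ^ 2 ≤ 20 * (Module.finrank ℂ (F j) : ℝ) * ((j : ℝ) + 1) ^ 2 * (f (star x * x)).re := by
  have hd : ∀ j, 1 ≤ Module.finrank ℂ (F j) := by
    intro j
    have : Nontrivial (F j) := by
      refine ⟨⟨⟨1, h1 j⟩, 0, ?_⟩⟩
      intro h
      have := congrArg Subtype.val h
      exact one_ne_zero this
    exact Module.finrank_pos
  choose g hgSt hg using fun j => exists_good_state (F j) rfl (hd j)
  set s : ℝ := ∑ j ∈ Finset.range (m + 1), 1 / ((j : ℝ) + 1) ^ 2 with hs
  have hs2 : s ≤ 2 := by
    have := sum_inv_sq_le m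
    have h2 : (0 : ℝ) ≤ 1 / ((m : ℝ) + 1) := by positivity
    linarith
  have hspos : 0 < s := by
    refine Finset.sum_pos (fun i _ => by positivity) ⟨0, by simp⟩
  set p : ℕ → ℝ := fun j => (1 / ((j : ℝ) + 1) ^ 2) / s with hp
  have hp0 : ∀ j, 0 ≤ p j := fun j => by positivity
  have hpsum : ∑ j ∈ Finset.range (m + 1), p j = 1 := by
    rw [hp, ← Finset.sum_div, ← hs, div_self hspos.ne']
  refine ⟨∑ j ∈ Finset.range (m + 1), ((p j : ℝ) : ℂ) • g j,
    St.sum_mem _ p g (fun i _ => hgSt i) (fun i _ => hp0 i) hpsum, fun j hj x hx => ?_⟩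
  have h3 : ((∑ j ∈ Finset.range (m + 1), ((p j : ℝ) : ℂ) • g j) (star x * x)).re
      = ∑ j ∈ Finset.range (m + 1), p j * (g j (star x * x)).re := by
    rw [_root_.sum_apply, Complex.re_sum]
    refine Finset.sum_congr rfl fun i _ => ?_
    rw [_root_.smul_apply, smul_eq_mul, Complex.re_ofReal_mul]
  rw [h3]
  have hnn : ∀ i, 0 ≤ (g i (star x * x)).re := fun i =>
    (Complex.nonneg_iff.1 (St.nonneg (hgSt i) (star_mul_self_nonneg x))).1
  have h4 : p j * (g j (star x * x)).re
      ≤ ∑ j ∈ Finset.range (m + 1), p j * (g j (star x * x)).re :=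
    Finset.single_le_sum (f := fun j => p j * (g j (star x * x)).re)
      (fun i _ => mul_nonneg (hp0 i) (hnn i)) (Finset.mem_range.2 (Nat.lt_succ_of_le hj))
  have h5 : 1 ≤ 2 * ((j : ℝ) + 1) ^ 2 * p j := by
    have : 2 * ((j : ℝ) + 1) ^ 2 * p j = 2 / s := by
      rw [hp]; field_simp
    rw [this, le_div_iff₀ hspos]
    linarith
  calc ‖x‖ ^ 2 ≤ 10 * (Module.finrank ℂ (F j)) * (g j (star x * x)).re := hg j x hx
    _ = 1 * (10 * (Module.finrank ℂ (F j)) * (g j (star x * x)).re) := by ring
    _ ≤ (2 * ((j : ℝ) + 1) ^ 2 * p j) * (10 * (Module.finrank ℂ (F j)) * (g j (star x * x)).re) := by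
      have : 0 ≤ 10 * (Module.finrank ℂ (F j) : ℝ) * (g j (star x * x)).re :=
        mul_nonneg (by positivity) (hnn j)
      gcongr
    _ = 20 * (Module.finrank ℂ (F j) : ℝ) * ((j : ℝ) + 1) ^ 2 * (p j * (g j (star x * x)).re) := by
      ring
    _ ≤ _ := by gcongr

/-- orthonormal bases for an abstract inner product -/
lemma exists_onb_core {V : Type*} [AddCommGroup V] [Module ℂ V] [FiniteDimensional ℂ V]
    (c : InnerProductSpace.Core ℂ V) :
    ∃ w : Fin (Module.finrank ℂ V) → V,
      (∀ i j, c.inner (w i) (w j) = if i = j then 1 else 0) ∧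
      ∀ x, x = ∑ i, c.inner (w i) x • w i := by
  let _ : NormedAddCommGroup V := c.toNormedAddCommGroup
  let _ : InnerProductSpace ℂ V := InnerProductSpace.ofCore c.toCore
  refine ⟨stdOrthonormalBasis ℂ V, ?_, ?_⟩
  · intro i j
    have := orthonormal_iff_ite.1 (stdOrthonormalBasis ℂ V).orthonormal i j
    exact this
  · intro x
    exact ((stdOrthonormalBasis ℂ V).sum_repr' x).symm

/-- orthonormal bases of finite-dimensional subspaces on which a positive functional is
faithful -/
lemma exists_onb_sub (f : A →ₚ[ℂ] ℂ) (W : Submodule ℂ A) [FiniteDimensional ℂ W]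
    (hdef : ∀ x ∈ W, f (star x * x) = 0 → x = 0) :
    ∃ w : Fin (Module.finrank ℂ W) → A, (∀ i, w i ∈ W) ∧
      (∀ i j, f (star (w i) * w j) = if i = j then 1 else 0) ∧
      ∀ x ∈ W, x = ∑ i, f (star (w i) * x) • w i := by
  let c : InnerProductSpace.Core ℂ W :=
    { inner := fun a b => f (star (a : A) * (b : A))
      conj_inner_symm := by
        intro a b
        rw [← Complex.star_def, ← map_star f]
        simp
      re_inner_nonneg := fun a =>
        RCLike.nonneg_iff.mp (f.map_nonneg (star_mul_self_nonneg _)) |>.1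
      add_left := by
        intro a b d
        simp [add_mul]
      smul_left := by
        intro a b r
        simp [smul_mul_assoc]
      definite := by
        intro a ha
        exact Subtype.ext (hdef a a.2 ha) }
  obtain ⟨w, hw1, hw2⟩ := exists_onb_core c
  refine ⟨fun i => (w i : A), fun i => (w i).2, hw1, fun x hx => ?_⟩
  have h := congrArg (Submodule.subtype W) (hw2 ⟨x, hx⟩)
  rw [map_sum] at h
  simp only [Submodule.subtype_apply, Submodule.coe_smul] at h
  exact h

/-- adapted orthonormal families -/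
theorem exists_adapted (f : A →ₚ[ℂ] ℂ) (hf1 : f 1 = 1) (F : ℕ → Submodule ℂ A)
    [∀ n, FiniteDimensional ℂ (F n)] (hmono : Monotone F)
    (hF0 : F 0 = Submodule.span ℂ {(1 : A)}) (m : ℕ)
    (hdef : ∀ x ∈ F m, f (star x * x) = 0 → x = 0) :
    ∃ (I : Type) (_ : Fintype I) (_ : DecidableEq I) (e : I → A) (lev : I → ℕ),
      (∀ i j, f (star (e i) * e j) = if i = j then 1 else 0) ∧
      (∀ i, e i ∈ F (lev i)) ∧ (∀ i, lev i ≤ m) ∧
      (∀ i, ∀ n < lev i, ∀ y ∈ F n, f (star y * e i) = 0) ∧
      (∀ x ∈ F m, x = ∑ i, f (star (e i) * x) • e i) ∧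
      (∀ g : ℕ → ℝ, (∀ j, 0 ≤ g j) →
        ∑ i, g (lev i) ≤ ∑ j ∈ Finset.range (m + 1), (Module.finrank ℂ (F j) : ℝ) * g j) ∧
      (∃ i, e i = 1 ∧ lev i = 0) := by
  induction m with
  | zero =>
    refine ⟨Unit, inferInstance, inferInstance, fun _ => 1, fun _ => 0, ?_, ?_, ?_, ?_, ?_, ?_, ?_⟩
    · intro i j
      simp [hf1]
    · intro i
      rw [hF0]
      exact Submodule.mem_span_singleton_self 1
    · intro i; exact le_rfl
    · intro i n hn
      exact absurd hn (Nat.not_lt_zero n)
    · intro x hx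
      rw [hF0, Submodule.mem_span_singleton] at hx
      obtain ⟨c, rfl⟩ := hx
      simp [hf1]
    · intro g hg
      simp only [Finset.univ_unique, Finset.sum_singleton, zero_add, Finset.range_one]
      rcases subsingleton_or_nontrivial A with h | h
      · exfalso
        have : (1 : A) = 0 := Subsingleton.elim _ _
        rw [this, map_zero] at hf1
        exact zero_ne_one hf1
      · have h1 : Module.finrank ℂ (F 0) = 1 := by
          rw [hF0]
          exact finrank_span_singleton one_ne_zero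
        rw [h1]
        simp
    · exact ⟨(), rfl, rfl⟩
  | succ m ih =>
    obtain ⟨I, hI1, hI2, e, lev, P1, P2, P3, P4, P5, P6, P7⟩ :=
      ih (fun x hx => hdef x (hmono (Nat.le_succ m) hx))
    let L : I → A →ₗ[ℂ] ℂ := fun i => f.toLinearMap ∘ₗ LinearMap.mulLeft ℂ (star (e i))
    have hL : ∀ i x, L i x = f (star (e i) * x) := fun i x => rfl
    set W : Submodule ℂ A := F (m + 1) ⊓ ⨅ i, LinearMap.ker (L i) with hW
    have hWle : W ≤ F (m + 1) := inf_le_left
    have hWmem : ∀ x, x ∈ W ↔ x ∈ F (m + 1) ∧ ∀ i, f (star (e i) * x) = 0 := by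
      intro x
      rw [hW, Submodule.mem_inf, Submodule.mem_iInf]
      exact Iff.rfl
    have : FiniteDimensional ℂ W := Submodule.finiteDimensional_of_le hWle
    obtain ⟨w, hw1, hw2, hw3⟩ := exists_onb_sub f W (fun x hx => hdef x (hWle hx))
    have hwe : ∀ i l, f (star (e i) * w l) = 0 := fun i l => ((hWmem _).1 (hw1 l)).2 i
    have hew : ∀ l i, f (star (w l) * e i) = 0 := by
      intro l i
      have h := hwe i l
      have h2 := congrArg star h
      rw [← map_star f] at h2
      simpa using h2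
    refine ⟨I ⊕ Fin (Module.finrank ℂ W), inferInstance, inferInstance, Sum.elim e w,
      Sum.elim lev (fun _ => m + 1), ?_, ?_, ?_, ?_, ?_, ?_, ?_⟩
    · rintro (i | i) (j | j)
      · simp [P1]
      · simp [hwe]
      · simp [hew]
      · simp [hw2]
    · rintro (i | i)
      · exact P2 i
      · exact hWle (hw1 i)
    · rintro (i | i)
      · exact (P3 i).trans (Nat.le_succ m)
      · exact le_rfl
    · rintro (i | i) n hn y hy
      · exact P4 i n hn y hy
      · simp only [Sum.elim_inr] at hn ⊢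
        have hy' : y ∈ F m := hmono (Nat.lt_succ_iff.1 hn) hy
        rw [P5 y hy', star_sum, Finset.sum_mul, map_sum]
        refine Finset.sum_eq_zero fun j _ => ?_
        rw [star_smul, smul_mul_assoc, map_smul, hwe, smul_zero]
    · intro x hx
      set x' : A := x - ∑ i, f (star (e i) * x) • e i with hx'
      have hx'W : x' ∈ W := by
        rw [hWmem]
        refine ⟨?_, fun i => ?_⟩
        · refine Submodule.sub_mem _ hx (Submodule.sum_mem _ fun i _ => Submodule.smul_mem _ _ ?_)
          exact hmono ((P3 i).trans (Nat.le_succ m)) (P2 i)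
        · rw [hx', mul_sub, map_sub, Finset.mul_sum, map_sum]
          have : ∀ j ∈ Finset.univ, f (star (e i) * f (star (e j) * x) • e j)
              = if j = i then f (star (e i) * x) else 0 := by
            intro j _
            rw [mul_smul_comm, map_smul, P1]
            by_cases hij : i = j
            · subst hij; simp
            · rw [if_neg hij, if_neg (Ne.symm hij), smul_zero]
          rw [Finset.sum_congr rfl this]
          simp
      have h1 := hw3 x' hx'W
      have h2 : ∀ l, f (star (w l) * x') = f (star (w l) * x) := by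
        intro l
        rw [hx', mul_sub, map_sub, Finset.mul_sum, map_sum]
        have : ∀ j ∈ Finset.univ, f (star (w l) * f (star (e j) * x) • e j) = 0 := by
          intro j _
          rw [mul_smul_comm, map_smul, hew, smul_zero]
        rw [Finset.sum_eq_zero this, sub_zero]
      rw [Fintype.sum_sum_type]
      simp only [Sum.elim_inl, Sum.elim_inr]
      have h3 : x = ∑ i, f (star (e i) * x) • e i + x' := by rw [hx']; abel
      conv_lhs => rw [h3, h1]
      congr 1
      exact Finset.sum_congr rfl fun l _ => by rw [h2]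
    · intro g hg
      rw [Fintype.sum_sum_type, Finset.sum_range_succ]
      simp only [Sum.elim_inl, Sum.elim_inr]
      refine add_le_add (P6 g hg) ?_
      rw [Finset.sum_const, Finset.card_univ, Fintype.card_fin, nsmul_eq_mul]
      have h4 : Module.finrank ℂ W ≤ Module.finrank ℂ (F (m + 1)) :=
        Submodule.finrank_mono hWle
      have h5 : (Module.finrank ℂ W : ℝ) ≤ Module.finrank ℂ (F (m + 1)) := by exact_mod_cast h4
      exact mul_le_mul_of_nonneg_right h5 (hg _)
    · obtain ⟨i, hi1, hi2⟩ := P7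
      exact ⟨Sum.inl i, hi1, hi2⟩

end Pool.Agent.W39.Nuc
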