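import Mathlib
import Pool.Agent.W39.Nuc.Good

set_option autoImplicit false

open scoped ComplexOrder MatrixOrder Matrix.Norms.L2Operator
open Matrix

namespace Pool.Agent.W39.Nuc

variable {A : Type*} [CStarAlgebra A]

section row

variable [PartialOrder A] [StarOrderedRing A]

/-- if `Σ v v* ≤ 1` and `z = Σ v w*` then `z* z ≤ Σ w w*` -/
lemma row_contraction {ι : Type*} (s : Finset ι) (v w : ι → A)
    (hv : ∑ p ∈ s, v p * star (v p) ≤ 1) :
    star (∑ p ∈ s, v p * star (w p)) * (∑ p ∈ s, v p * star (w p))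
      ≤ ∑ p ∈ s, w p * star (w p) := by
  set z : A := ∑ p ∈ s, v p * star (w p) with hz
  have h1 : 0 ≤ ∑ p ∈ s, star (star (w p) - star (v p) * z) * (star (w p) - star (v p) * z) :=
    Finset.sum_nonneg fun p _ => star_mul_self_nonneg _
  have hzs : star z = ∑ p ∈ s, w p * star (v p) := by
    rw [hz, star_sum]
    refine Finset.sum_congr rfl fun p _ => ?_
    rw [star_mul, star_star]
  have h2 : ∑ p ∈ s, star (star (w p) - star (v p) * z) * (star (w p) - star (v p) * z)
      = ∑ p ∈ s, w p * star (w p) - star z * z - star z * z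
        + star z * (∑ p ∈ s, v p * star (v p)) * z := by
    have e1 : ∀ p ∈ s, star (star (w p) - star (v p) * z) * (star (w p) - star (v p) * z)
        = w p * star (w p) - (w p * star (v p)) * z - star z * (v p * star (w p))
          + star z * (v p * star (v p)) * z := by
      intro p _
      rw [star_sub, star_mul, star_star, star_star]
      noncomm_ring
    rw [Finset.sum_congr rfl e1, Finset.sum_add_distrib, Finset.sum_sub_distrib,
      Finset.sum_sub_distrib, ← Finset.sum_mul, ← hzs, ← Finset.mul_sum, ← hz,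
      ← Finset.sum_mul, ← Finset.mul_sum]
  rw [h2] at h1
  have h3 : star z * (∑ p ∈ s, v p * star (v p)) * z ≤ star z * 1 * z :=
    star_left_conjugate_le_conjugate hv z
  rw [mul_one] at h3
  have h4 : 0 ≤ ∑ p ∈ s, w p * star (w p) - star z * z - star z * z + star z * z :=
    h1.trans (add_le_add_right h3 _)
  rw [sub_add_cancel] at h4
  exact sub_nonneg.1 h4

end row

variable {I κ : Type*} [Fintype I] [DecidableEq I] [Fintype κ]

/-- the reconstruction map -/
noncomputable def psiM (v : κ → I → A) : Matrix I I ℂ →ₗ[ℂ] A where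
  toFun T := ∑ k, ∑ i, ∑ j, T i j • (v k i * star (v k j))
  map_add' S T := by
    simp [add_smul, Finset.sum_add_distrib]
  map_smul' c T := by
    simp [Finset.smul_sum, smul_smul]

omit [DecidableEq I] in
lemma psiM_apply (v : κ → I → A) (T : Matrix I I ℂ) :
    psiM v T = ∑ k, ∑ i, ∑ j, T i j • (v k i * star (v k j)) := rfl

/-- auxiliary columns -/
noncomputable def colX (v : κ → I → A) (S : Matrix I I ℂ) (k : κ) (l : I) : A :=
  ∑ i, star (S l i) • v k i

omit [Fintype κ] in
lemma colX_one (v : κ → I → A) (k : κ) (l : I) : colX v 1 k l = v k l := by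
  simp [colX, Matrix.one_apply]

omit [DecidableEq I] in
lemma psiM_conj_mul (v : κ → I → A) (S T : Matrix I I ℂ) :
    psiM v (Sᴴ * T) = ∑ k, ∑ l, colX v S k l * star (colX v T k l) := by
  rw [psiM_apply]
  refine Finset.sum_congr rfl fun k _ => ?_
  have h1 : ∀ l, colX v S k l * star (colX v T k l)
      = ∑ i, ∑ j, (star (S l i) * T l j) • (v k i * star (v k j)) := by
    intro l
    rw [colX, colX, star_sum, Finset.sum_mul_sum]
    refine Finset.sum_congr rfl fun i _ => Finset.sum_congr rfl fun j _ => ?_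
    rw [star_smul, star_star, smul_mul_smul_comm]
  simp only [h1]
  conv_rhs => rw [Finset.sum_comm]
  refine Finset.sum_congr rfl fun i _ => ?_
  conv_rhs => rw [Finset.sum_comm]
  refine Finset.sum_congr rfl fun j _ => ?_
  rw [← Finset.sum_smul, Matrix.mul_apply]
  rfl

lemma psiM_one (v : κ → I → A) : psiM v 1 = ∑ k, ∑ i, v k i * star (v k i) := by
  have h := psiM_conj_mul v 1 1
  rw [conjTranspose_one, one_mul] at h
  rw [h]
  simp only [colX_one]

section order

variable [PartialOrder A] [StarOrderedRing A]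

omit [DecidableEq I] in
lemma psiM_nonneg (v : κ → I → A) (S : Matrix I I ℂ) : 0 ≤ psiM v (Sᴴ * S) := by
  rw [psiM_conj_mul]
  exact Finset.sum_nonneg fun k _ => Finset.sum_nonneg fun l _ => mul_star_self_nonneg _

lemma psiM_norm_le (v : κ → I → A) (hv : psiM v 1 ≤ 1) (T : Matrix I I ℂ) :
    ‖psiM v T‖ ≤ ‖T‖ := by
  have h1 : psiM v T = ∑ p : κ × I, v p.1 p.2 * star (colX v T p.1 p.2) := by
    have h := psiM_conj_mul v 1 T
    rw [conjTranspose_one, one_mul] at h
    rw [h, Fintype.sum_prod_type]
    simp only [colX_one]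
  have h2 : ∑ p : κ × I, v p.1 p.2 * star (v p.1 p.2) ≤ 1 := by
    rw [Fintype.sum_prod_type]
    rwa [psiM_one] at hv
  have h3 := row_contraction Finset.univ (fun p : κ × I => v p.1 p.2)
    (fun p : κ × I => colX v T p.1 p.2) h2
  rw [← h1] at h3
  have h4 : ∑ p : κ × I, colX v T p.1 p.2 * star (colX v T p.1 p.2) = psiM v (Tᴴ * T) := by
    rw [psiM_conj_mul, Fintype.sum_prod_type]
  rw [h4] at h3
  have h5 : psiM v (Tᴴ * T) ≤ algebraMap ℝ A (‖T‖ ^ 2) := by
    have h6 : star T * T ≤ algebraMap ℝ (Matrix I I ℂ) (‖T‖ ^ 2) :=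
      CStarAlgebra.star_mul_le_algebraMap_norm_sq
    have h7 := sub_nonneg.2 h6
    obtain ⟨S, hS⟩ := CStarAlgebra.nonneg_iff_eq_star_mul_self.mp h7
    have h8 := psiM_nonneg v S
    rw [← star_eq_conjTranspose, ← hS, map_sub] at h8
    have h9 := sub_nonneg.1 h8
    have h10 : psiM v (algebraMap ℝ (Matrix I I ℂ) (‖T‖ ^ 2)) = (‖T‖ ^ 2) • psiM v 1 := by
      rw [Algebra.algebraMap_eq_smul_one]
      exact LinearMap.map_smul_of_tower (psiM v) _ _
    rw [h10] at h9
    rw [star_eq_conjTranspose] at h9
    refine h9.trans ?_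
    rw [Algebra.algebraMap_eq_smul_one]
    exact smul_le_smul_of_nonneg_left hv (by positivity)
  have h6 := h3.trans h5
  have h7 : ‖star (psiM v T) * psiM v T‖ ≤ ‖T‖ ^ 2 := by
    rcases subsingleton_or_nontrivial A with hA | hA
    · rw [Subsingleton.elim (star (psiM v T) * psiM v T) 0, norm_zero]
      positivity
    · have := CStarAlgebra.norm_le_norm_of_nonneg_of_le (star_mul_self_nonneg (psiM v T)) h6
      refine this.trans ?_
      rw [norm_algebraMap', Real.norm_of_nonneg (by positivity)]
  rw [CStarRing.norm_star_mul_self, ← sq] at h7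
  exact (sq_le_sq₀ (norm_nonneg _) (norm_nonneg _)).1 h7

end order

/-- sums of squares are squares -/
theorem exists_sum_star_mul_self {B : Type*} [NonUnitalCStarAlgebra B] {ι : Type*}
    (s : Finset ι) (w : ι → B) :
    ∃ y : B, ∑ i ∈ s, star (w i) * w i = star y * y := by
  let _ := CStarAlgebra.spectralOrder B
  have _ := CStarAlgebra.spectralOrderedRing B
  have hpos : 0 ≤ ∑ i ∈ s, star (w i) * w i := Finset.sum_nonneg fun k _ => star_mul_self_nonneg _
  exact CStarAlgebra.nonneg_iff_eq_star_mul_self.mp hpos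

/-- sums of squares are squares, in matrices -/
theorem exists_sum_conjTranspose_mul_self {n : ℕ} {ι : Type*} (s : Finset ι)
    (w : ι → Matrix (Fin n) (Fin n) A) :
    ∃ y : Matrix (Fin n) (Fin n) A,
      ∑ i ∈ s, (w i).conjTranspose * w i = y.conjTranspose * y := by
  let _ := CStarAlgebra.spectralOrder A
  have _ := CStarAlgebra.spectralOrderedRing A
  exact exists_sum_star_mul_self (B := CStarMatrix (Fin n) (Fin n) A) s w

omit [DecidableEq I] in
/-- complete positivity of the reconstruction map -/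
lemma psiM_cp (v : κ → I → A) (n : ℕ) (y : Matrix (Fin n) (Fin n) (Matrix I I ℂ)) :
    ∃ z : Matrix (Fin n) (Fin n) A,
      (y.conjTranspose * y).map (psiM v) = z.conjTranspose * z := by
  obtain ⟨z, hz⟩ := exists_sum_conjTranspose_mul_self Finset.univ
    (fun p : κ × I => (Matrix.of fun r q => star (colX v (y r q) p.1 p.2) :
      Matrix (Fin n) (Fin n) A))
  refine ⟨z, ?_⟩
  rw [← hz]
  ext p q
  rw [Matrix.map_apply, Matrix.mul_apply, map_sum, Matrix.sum_apply, Fintype.sum_prod_type]
  have h2 : ∀ r, psiM v (y.conjTranspose p r * y r q)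
      = ∑ k, ∑ l, colX v (y r p) k l * star (colX v (y r q) k l) := by
    intro r
    rw [conjTranspose_apply, star_eq_conjTranspose, psiM_conj_mul]
  simp only [h2]
  rw [Finset.sum_comm]
  refine Finset.sum_congr rfl fun k _ => ?_
  rw [Finset.sum_comm]
  refine Finset.sum_congr rfl fun l _ => ?_
  rw [Matrix.mul_apply]
  refine Finset.sum_congr rfl fun r _ => ?_
  rw [conjTranspose_apply, of_apply, of_apply, star_star]

end Pool.Agent.W39.Nuc
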