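import Mathlib

set_option autoImplicit false

namespace Pool.Agent.W39.Nuc

variable {A : Type*} [CStarAlgebra A]

section order

variable [PartialOrder A] [StarOrderedRing A] [Nontrivial A]

/-- the resolvent `(1+H)⁻¹` and its properties -/
lemma exists_resolvent {H : A} (hH : 1 ≤ H) {h : ℝ} (hh : ‖H‖ ≤ h) :
    ∃ R : A, star R = R ∧ R * (1 + H) = 1 ∧ (1 + H) * R = 1 ∧ ‖R‖ ≤ 1 ∧
      ‖(2 : ℝ) • R - 1‖ ≤ 1 - 2 / (1 + h) := by
  have hsa : IsSelfAdjoint H := IsSelfAdjoint.of_nonneg (zero_le_one.trans hH)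
  have hspec1 : ∀ x ∈ spectrum ℝ H, 1 ≤ x := by
    have := (algebraMap_le_iff_le_spectrum (r := (1 : ℝ)) (a := H) (ha := hsa)).1 (by simpa using hH)
    exact this
  have hspec2 : ∀ x ∈ spectrum ℝ H, x ≤ h := by
    intro x hx
    have h1 := spectrum.norm_le_norm_of_mem hx
    exact (le_abs_self x).trans (h1.trans hh)
  have h1h : 1 ≤ h := by
    have h1 : ‖(1 : A)‖ ≤ ‖H‖ := CStarAlgebra.norm_le_norm_of_nonneg_of_le zero_le_one hH
    rw [CStarRing.norm_one] at h1
    linarith
  set g : ℝ → ℝ := fun x => (1 + x)⁻¹ with hg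
  have hgc : ContinuousOn g (spectrum ℝ H) := by
    refine ContinuousOn.inv₀ (by fun_prop) fun x hx => ?_
    have := hspec1 x hx
    linarith
  have hone : (1 : A) + H = cfc (fun x : ℝ => 1 + x) H := by
    rw [cfc_const_add (1 : ℝ) (fun x => x) H, cfc_id' ℝ H, map_one]
  have hmul1 : cfc g H * (1 + H) = 1 := by
    rw [hone, ← cfc_mul g (fun x : ℝ => 1 + x) H, ← cfc_one ℝ H]
    refine cfc_congr fun x hx => ?_
    have := hspec1 x hx
    simp only [hg, Pi.one_apply]
    rw [inv_mul_cancel₀ (by linarith)]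
  have hmul2 : (1 + H) * cfc g H = 1 := by
    rw [hone, ← cfc_mul (fun x : ℝ => 1 + x) g H, ← cfc_one ℝ H]
    refine cfc_congr fun x hx => ?_
    have := hspec1 x hx
    simp only [hg, Pi.one_apply]
    rw [mul_inv_cancel₀ (by linarith)]
  refine ⟨cfc g H, (cfc_predicate g H).star_eq, hmul1, hmul2, ?_, ?_⟩
  · refine norm_cfc_le zero_le_one fun x hx => ?_
    have := hspec1 x hx
    rw [hg, Real.norm_of_nonneg (by positivity)]
    exact inv_le_one_of_one_le₀ (by linarith)
  · have h2 : (2 : ℝ) • cfc g H - 1 = cfc (fun x => 2 • g x - 1) H := by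
      rw [cfc_sub (fun x => 2 • g x) (fun _ => 1) H (by fun_prop) (by fun_prop),
        cfc_smul (2 : ℕ) g H, cfc_const_one ℝ H]
      congr 1
      rw [← Nat.cast_smul_eq_nsmul ℝ]
      norm_num
    rw [h2]
    refine norm_cfc_le (f := fun x : ℝ => 2 • g x - 1) (a := H) ?_ fun x hx => ?_
    · rw [sub_nonneg, div_le_one (by linarith)]; linarith
    · have hx1 := hspec1 x hx
      have hx2 := hspec2 x hx
      have h3 : (2 : ℕ) • g x - 1 = -(1 - 2 / (1 + x)) := by
        rw [hg]; simp only [nsmul_eq_mul, Nat.cast_ofNat]; ring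
      rw [h3, norm_neg, Real.norm_of_nonneg]
      · have : 2 / (1 + h) ≤ 2 / (1 + x) := by
          apply div_le_div_of_nonneg_left <;> linarith
        linarith
      · rw [sub_nonneg, div_le_one (by linarith)]; linarith

end order

/-- telescoping identity -/
lemma telescope {H R : A} (h1 : R * (1 + H) = 1) (h2 : (1 + H) * R = 1) (Z : A) (K : ℕ) :
    Z - ((2 : ℝ) • R - 1) ^ K * Z * ((2 : ℝ) • R - 1) ^ K
      = ∑ k ∈ Finset.range K, (2 : ℝ) • (((2 : ℝ) • R - 1) ^ k * R * (H * Z + Z * H) * R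
          * ((2 : ℝ) • R - 1) ^ k) := by
  have hRH : R * H = 1 - R := by
    rw [mul_add, mul_one] at h1
    rw [← h1]; abel
  have hHR : H * R = 1 - R := by
    rw [add_mul, one_mul] at h2
    rw [← h2]; abel
  have key : ∀ Z : A, Z - ((2 : ℝ) • R - 1) * Z * ((2 : ℝ) • R - 1)
      = (2 : ℝ) • (R * (H * Z + Z * H) * R) := by
    intro Z
    have e1 : R * (H * Z + Z * H) * R = (R * H) * Z * R + R * Z * (H * R) := by noncomm_ring
    rw [e1, hRH, hHR]
    simp only [sub_mul, mul_sub, smul_mul_assoc, mul_smul_comm, one_mul, mul_one, smul_sub,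
      smul_add, smul_smul]
    have e2 : ∀ x : A, (2 * 2 : ℝ) • x = (2 : ℝ) • x + (2 : ℝ) • x := by
      intro x
      rw [← add_smul]; norm_num
    rw [e2]
    abel
  induction K with
  | zero => simp
  | succ K ih =>
    rw [Finset.sum_range_succ, ← ih]
    set U : A := (2 : ℝ) • R - 1 with hU
    clear_value U
    have e3 : (2 : ℝ) • (U ^ K * R * (H * Z + Z * H) * R * U ^ K)
        = U ^ K * (Z - U * Z * U) * U ^ K := by
      rw [key Z]
      simp only [mul_smul_comm, smul_mul_assoc, mul_assoc]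
    rw [e3]
    have e4 : U ^ (K + 1) * Z * U ^ (K + 1) = U ^ K * (U * Z * U) * U ^ K := by
      rw [pow_succ U K]
      have : U ^ K * U = U * U ^ K := by rw [← pow_succ, ← pow_succ']
      conv_lhs => rw [mul_assoc, mul_assoc]
      rw [show U ^ K * (U * (Z * (U ^ K * U))) = U ^ K * (U * (Z * (U * U ^ K))) by rw [this]]
      simp only [mul_assoc]
    rw [e4, mul_sub, sub_mul]
    abel

end Pool.Agent.W39.Nuc
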