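import Mathlib
import Pool.Agent.W39.Nuc.Phi
import Pool.Agent.W39.Nuc.Psi
import Pool.Agent.W39.Nuc.Band
import Pool.Agent.W39.Nuc.Resolv

set_option autoImplicit false

open scoped ComplexOrder MatrixOrder Matrix.Norms.L2Operator
open Matrix

namespace Pool.Agent.W39.Nuc

variable {A : Type*} [CStarAlgebra A]
variable {I : Type*} [Fintype I] [DecidableEq I]

/-- weights -/
noncomputable def wt (μ : ℝ) (lev : I → ℕ) (i : I) : ℂ := ((μ ^ lev i : ℝ) : ℂ)

omit [Fintype I] [DecidableEq I] in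
lemma star_wt (μ : ℝ) (lev : I → ℕ) (i : I) : star (wt μ lev i) = wt μ lev i := by
  simp [wt]

/-- the weighted family -/
noncomputable def wfam (μ : ℝ) (lev : I → ℕ) (e : I → A) : Unit → I → A :=
  fun _ i => wt μ lev i • e i

omit [DecidableEq I] in
lemma psi0_apply (μ : ℝ) (lev : I → ℕ) (e : I → A) (T : Matrix I I ℂ) :
    psiM (wfam μ lev e) T
      = ∑ i, ∑ j, (T i j * (wt μ lev i * wt μ lev j)) • (e i * star (e j)) := by
  rw [psiM_apply]
  simp only [Finset.univ_unique, Finset.sum_singleton]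
  refine Finset.sum_congr rfl fun i _ => Finset.sum_congr rfl fun j _ => ?_
  simp only [wfam]
  rw [star_smul, star_wt, smul_mul_smul_comm, smul_smul]

/-- the element `H` -/
noncomputable def HH (μ : ℝ) (lev : I → ℕ) (e : I → A) : A := psiM (wfam μ lev e) 1

lemma HH_apply (μ : ℝ) (lev : I → ℕ) (e : I → A) :
    HH μ lev e = ∑ i, (wt μ lev i ^ 2) • (e i * star (e i)) := by
  rw [HH, psiM_one]
  simp only [Finset.univ_unique, Finset.sum_singleton, wfam]
  refine Finset.sum_congr rfl fun i _ => ?_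
  rw [star_smul, star_wt, smul_mul_smul_comm, sq]

lemma star_HH (μ : ℝ) (lev : I → ℕ) (e : I → A) : star (HH μ lev e) = HH μ lev e := by
  rw [HH_apply, star_sum]
  refine Finset.sum_congr rfl fun i _ => ?_
  rw [star_smul, star_pow, star_wt, star_mul, star_star]

omit [DecidableEq I] in
/-- conjugated reconstruction -/
lemma psiM_conj {κ : Type*} [Fintype κ] (c : κ → A) (x : Unit → I → A) (T : Matrix I I ℂ) :
    psiM (fun k i => c k * x () i) T = ∑ k, c k * psiM x T * star (c k) := by
  simp only [psiM_apply, Finset.univ_unique, Finset.sum_singleton]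
  refine Finset.sum_congr rfl fun k _ => ?_
  rw [Finset.mul_sum, Finset.sum_mul]
  refine Finset.sum_congr rfl fun i _ => ?_
  rw [Finset.mul_sum, Finset.sum_mul]
  refine Finset.sum_congr rfl fun j _ => ?_
  rw [mul_smul_comm, smul_mul_assoc, star_mul]
  simp only [mul_assoc]

section order

variable [PartialOrder A] [StarOrderedRing A]

/-- the one-sided error -/
noncomputable def E1 (f : A →ₚ[ℂ] ℂ) (μ : ℝ) (lev : I → ℕ) (e : I → A) (a : A) : A :=
  ∑ j, (wt μ lev j ^ 2) • ((a * e j - ∑ i, phiM f e a i j • e i) * star (e j))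

omit [StarOrderedRing A] in
lemma E1_eq (f : A →ₚ[ℂ] ℂ) (μ : ℝ) (lev : I → ℕ) (e : I → A) (a : A) :
    a * HH μ lev e = E1 f μ lev e a
      + ∑ i, ∑ j, (phiM f e a i j * wt μ lev j ^ 2) • (e i * star (e j)) := by
  rw [HH_apply, E1, Finset.mul_sum, Finset.sum_comm, ← Finset.sum_add_distrib]
  refine Finset.sum_congr rfl fun j _ => ?_
  rw [sub_mul, smul_sub, mul_smul_comm, mul_assoc, Finset.sum_mul, Finset.smul_sum]
  have : ∀ i ∈ Finset.univ, (phiM f e a i j * wt μ lev j ^ 2) • (e i * star (e j))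
      = wt μ lev j ^ 2 • ((phiM f e a i j • e i) * star (e j)) := by
    intro i _
    rw [smul_mul_assoc, smul_smul, mul_comm]
  rw [Finset.sum_congr rfl this]
  abel

omit [Fintype I] [DecidableEq I] in
lemma phiM_star (f : A →ₚ[ℂ] ℂ) (e : I → A) (a : A) (i j : I) :
    star (phiM f e a i j) = phiM f e (star a) j i := by
  rw [phiM_apply, phiM_apply, ← map_star f]
  simp [mul_assoc]

lemma E2_eq (f : A →ₚ[ℂ] ℂ) (μ : ℝ) (lev : I → ℕ) (e : I → A) (a : A) :
    HH μ lev e * a = star (E1 f μ lev e (star a))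
      + ∑ i, ∑ j, (phiM f e a i j * wt μ lev i ^ 2) • (e i * star (e j)) := by
  have h := congrArg star (E1_eq f μ lev e (star a))
  rw [star_mul, star_star, star_HH, star_add] at h
  rw [h]
  congr 1
  simp only [star_sum]
  conv_lhs => rw [Finset.sum_comm]
  refine Finset.sum_congr rfl fun i _ => Finset.sum_congr rfl fun j _ => ?_
  rw [star_smul, star_mul (e j), star_star, star_mul', star_pow, star_wt, phiM_star, star_star]

/-- the algebraic identity for `aH + Ha` -/
lemma anticomm_eq (f : A →ₚ[ℂ] ℂ) {μ : ℝ} (hμ : 0 < μ) (lev : I → ℕ) (e : I → A) (a : A) :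
    HH μ lev e * a + a * HH μ lev e = (2 : ℝ) • psiM (wfam μ lev e) (phiM f e a)
      + psiM (wfam μ lev e) (Bmat μ lev (phiM f e a))
      + (E1 f μ lev e a + star (E1 f μ lev e (star a))) := by
  rw [E1_eq f μ lev e a, E2_eq f μ lev e a, psi0_apply, psi0_apply]
  have h1 : (2 : ℝ) • (∑ i, ∑ j, (phiM f e a i j * (wt μ lev i * wt μ lev j)) •
        (e i * star (e j)))
      + ∑ i, ∑ j, (Bmat μ lev (phiM f e a) i j * (wt μ lev i * wt μ lev j)) • (e i * star (e j))
      = ∑ i, ∑ j, (phiM f e a i j * wt μ lev j ^ 2) • (e i * star (e j))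
        + ∑ i, ∑ j, (phiM f e a i j * wt μ lev i ^ 2) • (e i * star (e j)) := by
    rw [Finset.smul_sum, ← Finset.sum_add_distrib, ← Finset.sum_add_distrib]
    refine Finset.sum_congr rfl fun i _ => ?_
    rw [Finset.smul_sum, ← Finset.sum_add_distrib, ← Finset.sum_add_distrib]
    refine Finset.sum_congr rfl fun j _ => ?_
    rw [← Complex.coe_smul, smul_smul, ← add_smul, ← add_smul]
    congr 1
    rw [Bmat, of_apply]
    have hi : ((μ ^ lev i : ℝ) : ℂ) ≠ 0 := by
      have : (μ ^ lev i : ℝ) ≠ 0 := by positivity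
      exact_mod_cast this
    have hj : ((μ ^ lev j : ℝ) : ℂ) ≠ 0 := by
      have : (μ ^ lev j : ℝ) ≠ 0 := by positivity
      exact_mod_cast this
    simp only [wt]
    generalize hx : (μ ^ lev i : ℝ) = x at *
    generalize hy : (μ ^ lev j : ℝ) = y at *
    push_cast
    field_simp
    ring
  rw [h1]
  abel

end order

end Pool.Agent.W39.Nuc
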