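import Mathlib
import Pool.Agent.W39.Nuc.Core

set_option autoImplicit false

open scoped ComplexOrder MatrixOrder Matrix.Norms.L2Operator
open Matrix

namespace Pool.Agent.W39.Nuc

variable {A : Type*} [CStarAlgebra A] [PartialOrder A] [StarOrderedRing A]
variable {I : Type*} [Fintype I] [DecidableEq I]

lemma norm_E1_le (f : A →ₚ[ℂ] ℂ) {μ : ℝ} (hμ0 : 0 < μ) (hμ1 : μ ≤ 1) (lev : I → ℕ) (e : I → A)
    (he : ∀ i j, f (star (e i) * e j) = if i = j then 1 else 0)
    {c : ℝ} (hc0 : 0 ≤ c) (hc : ∀ i, ‖e i‖ ≤ c) (n m : ℕ) (a : A)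
    (hz : ∀ j, lev j + n ≤ m → a * e j = ∑ i, phiM f e a i j • e i) :
    ‖E1 f μ lev e a‖ ≤ (Fintype.card I : ℝ) * ((μ ^ (m - n)) ^ 2 *
      ((1 + (Fintype.card I : ℝ)) * c ^ 2 * ‖a‖)) := by
  rw [E1]
  refine (norm_sum_le _ _).trans ?_
  have hterm : ∀ j, ‖(wt μ lev j ^ 2) • ((a * e j - ∑ i, phiM f e a i j • e i) * star (e j))‖
      ≤ (μ ^ (m - n)) ^ 2 * ((1 + (Fintype.card I : ℝ)) * c ^ 2 * ‖a‖) := by
    intro j
    by_cases hj : lev j + n ≤ m
    · rw [hz j hj, sub_self, zero_mul, smul_zero, norm_zero]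
      positivity
    · rw [norm_smul, norm_pow]
      have h1 : ‖wt μ lev j‖ ≤ μ ^ (m - n) := by
        rw [wt, Complex.norm_real, Real.norm_of_nonneg (by positivity)]
        exact pow_le_pow_of_le_one hμ0.le hμ1 (by omega)
      have h2 : ‖(a * e j - ∑ i, phiM f e a i j • e i) * star (e j)‖
          ≤ (1 + (Fintype.card I : ℝ)) * c ^ 2 * ‖a‖ := by
        have h3 : ‖a * e j‖ ≤ ‖a‖ * c := (norm_mul_le _ _).trans (by gcongr; exact hc j)
        have h4 : ‖∑ i, phiM f e a i j • e i‖ ≤ (Fintype.card I : ℝ) * (‖a‖ * c) := by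
          refine (norm_sum_le _ _).trans ?_
          calc ∑ i, ‖phiM f e a i j • e i‖ ≤ ∑ _i : I, ‖a‖ * c := by
                refine Finset.sum_le_sum fun i _ => ?_
                rw [norm_smul]
                have h5 := (entry_norm_le (phiM f e a) i j).trans (phiM_norm_le f e he a)
                gcongr
                exact hc i
            _ = _ := by rw [Finset.sum_const, Finset.card_univ, nsmul_eq_mul]
        have h6 : ‖a * e j - ∑ i, phiM f e a i j • e i‖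
            ≤ ‖a‖ * c + (Fintype.card I : ℝ) * (‖a‖ * c) := (norm_sub_le _ _).trans (add_le_add h3 h4)
        calc ‖(a * e j - ∑ i, phiM f e a i j • e i) * star (e j)‖
            ≤ ‖a * e j - ∑ i, phiM f e a i j • e i‖ * ‖star (e j)‖ := norm_mul_le _ _
          _ ≤ (‖a‖ * c + (Fintype.card I : ℝ) * (‖a‖ * c)) * c := by
            rw [norm_star]
            gcongr
            exact hc j
          _ = _ := by ring
      gcongr
  calc ∑ j, ‖(wt μ lev j ^ 2) • ((a * e j - ∑ i, phiM f e a i j • e i) * star (e j))‖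
      ≤ ∑ _j : I, (μ ^ (m - n)) ^ 2 * ((1 + (Fintype.card I : ℝ)) * c ^ 2 * ‖a‖) :=
        Finset.sum_le_sum fun j _ => hterm j
    _ = _ := by rw [Finset.sum_const, Finset.card_univ, nsmul_eq_mul]

lemma one_le_HH {μ : ℝ} (lev : I → ℕ) (e : I → A) (h0 : ∃ i, e i = 1 ∧ lev i = 0) :
    1 ≤ HH μ lev e := by
  obtain ⟨i, hi1, hi2⟩ := h0
  rw [HH, psiM_one]
  simp only [Finset.univ_unique, Finset.sum_singleton]
  have h1 : wfam μ lev e default i * star (wfam μ lev e default i) = 1 := by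
    simp [wfam, wt, hi1, hi2]
  calc (1 : A) = wfam μ lev e default i * star (wfam μ lev e default i) := h1.symm
    _ ≤ _ := Finset.single_le_sum
      (f := fun i => wfam μ lev e default i * star (wfam μ lev e default i))
      (fun _ _ => mul_star_self_nonneg _) (Finset.mem_univ i)

omit [PartialOrder A] [StarOrderedRing A] in
lemma norm_HH_le {μ : ℝ} (lev : I → ℕ) (e : I → A) (κ : ℕ → ℝ)
    (hκ : ∀ i, ‖e i‖ ^ 2 ≤ κ (lev i)) :
    ‖HH μ lev e‖ ≤ ∑ i, (μ ^ lev i) ^ 2 * κ (lev i) := by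
  rw [HH_apply]
  refine (norm_sum_le _ _).trans (Finset.sum_le_sum fun i _ => ?_)
  rw [norm_smul, norm_pow, wt, Complex.norm_real, Real.norm_eq_abs, sq_abs]
  gcongr
  refine (norm_mul_le _ _).trans ?_
  rw [norm_star, ← sq]
  exact hκ i

/-- the main estimate -/
theorem main_est [Nontrivial A] (f : A →ₚ[ℂ] ℂ) {μ : ℝ} (hμ0 : 0 < μ) (lev : I → ℕ) (e : I → A)
    (he : ∀ i j, f (star (e i) * e j) = if i = j then 1 else 0)
    (h0 : ∃ i, e i = 1 ∧ lev i = 0) {h : ℝ} (hh : ‖HH μ lev e‖ ≤ h) (K : ℕ) :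
    ∃ v : Fin K → I → A, psiM v 1 ≤ 1 ∧ ∀ (n : ℕ) (a : A),
      (∀ i j, lev i + n < lev j ∨ lev j + n < lev i → phiM f e a i j = 0) →
      ‖psiM v (phiM f e a) - a‖ ≤ ((1 - 2 / (1 + h)) ^ K) ^ 2 * ‖a‖
        + bandMod n μ * ‖a‖ / 2
        + 2 * K * (‖E1 f μ lev e a‖ + ‖E1 f μ lev e (star a)‖) := by
  have h1H : 1 ≤ HH μ lev e := one_le_HH lev e h0
  obtain ⟨R, hR1, hR2, hR3, hR4, hR5⟩ := exists_resolvent h1H hh
  have h1h : 1 ≤ h := by
    have h1 : ‖(1 : A)‖ ≤ ‖HH μ lev e‖ := CStarAlgebra.norm_le_norm_of_nonneg_of_le zero_le_one h1H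
    rw [CStarRing.norm_one] at h1
    linarith
  have htel := telescope hR2 hR3 (K := K)
  set H : A := HH μ lev e with hH
  set U : A := (2 : ℝ) • R - 1 with hU
  have hUs : star U = U := by
    rw [hU, star_sub, star_smul, hR1, star_one]
    simp
  clear_value U
  set u : ℝ := 1 - 2 / (1 + h) with hu
  have hu0 : 0 ≤ u := by
    rw [hu, sub_nonneg, div_le_one (by linarith)]; linarith
  have hu1 : u ≤ 1 := by
    rw [hu]
    have : 0 ≤ 2 / (1 + h) := by positivity
    linarith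
  have hUk : ∀ k : ℕ, ‖U ^ k‖ ≤ u ^ k := fun k => (norm_pow_le U k).trans (by gcongr)
  have hUk1 : ∀ k : ℕ, ‖U ^ k‖ ≤ 1 := fun k => (hUk k).trans (pow_le_one₀ hu0 hu1)
  set c : Fin K → A := fun k => (2 : ℝ) • (U ^ (k : ℕ) * R) with hc
  have hcs : ∀ k, star (c k) = (2 : ℝ) • (R * U ^ (k : ℕ)) := by
    intro k
    rw [hc]
    simp only [star_smul, star_mul, hR1, star_pow, hUs]
    simp
  set x : Unit → I → A := wfam μ lev e with hx
  set v : Fin K → I → A := fun k i => c k * x () i with hv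
  have hpsi : ∀ T : Matrix I I ℂ, psiM v T
      = ∑ k ∈ Finset.range K, (4 : ℝ) • (U ^ k * R * psiM x T * R * U ^ k) := by
    intro T
    rw [hv, psiM_conj, ← Fin.sum_univ_eq_sum_range
      (fun k => (4 : ℝ) • (U ^ k * R * psiM x T * R * U ^ k))]
    refine Finset.sum_congr rfl fun k _ => ?_
    rw [hcs]
    simp only [hc]
    rw [smul_mul_assoc, smul_mul_smul_comm]
    norm_num
    simp only [mul_assoc]
  have hone : psiM v 1 = 1 - U ^ K * U ^ K := by
    have h1 := htel 1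
    rw [mul_one] at h1
    rw [h1, hpsi]
    refine Finset.sum_congr rfl fun k _ => ?_
    have h2 : psiM x 1 = H := rfl
    rw [h2, mul_one, one_mul]
    have h3 : U ^ k * R * (H + H) * R * U ^ k = (2 : ℝ) • (U ^ k * R * H * R * U ^ k) := by
      rw [two_smul]; noncomm_ring
    rw [h3, smul_smul]
    norm_num
  refine ⟨v, ?_, ?_⟩
  · rw [hone]
    have h2 : (0 : A) ≤ U ^ K * U ^ K := by
      have h3 : star (U ^ K) * U ^ K = U ^ K * U ^ K := by rw [star_pow, hUs]
      rw [← h3]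
      exact star_mul_self_nonneg _
    exact sub_le_self 1 h2
  · intro n a hband
    have h1 := htel a
    set E : A := E1 f μ lev e a + star (E1 f μ lev e (star a)) with hE
    have h2 : H * a + a * H = (2 : ℝ) • psiM x (phiM f e a)
        + psiM x (Bmat μ lev (phiM f e a)) + E := anticomm_eq f hμ0 lev e a
    rw [h2] at h1
    have h3 : ∑ k ∈ Finset.range K, (2 : ℝ) • (U ^ k * R *
          ((2 : ℝ) • psiM x (phiM f e a) + psiM x (Bmat μ lev (phiM f e a)) + E) * R * U ^ k)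
        = psiM v (phiM f e a) + (2⁻¹ : ℝ) • psiM v (Bmat μ lev (phiM f e a))
          + ∑ k ∈ Finset.range K, (2 : ℝ) • (U ^ k * R * E * R * U ^ k) := by
      rw [hpsi, hpsi, Finset.smul_sum, ← Finset.sum_add_distrib, ← Finset.sum_add_distrib]
      refine Finset.sum_congr rfl fun k _ => ?_
      rw [mul_add, mul_add, add_mul, add_mul, add_mul, add_mul, smul_add, smul_add,
        mul_smul_comm, smul_mul_assoc, smul_mul_assoc, smul_smul, smul_smul]
      norm_num
    rw [h3] at h1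
    have h4 : psiM v (phiM f e a) - a = -(U ^ K * a * U ^ K)
        - (2⁻¹ : ℝ) • psiM v (Bmat μ lev (phiM f e a))
        - ∑ k ∈ Finset.range K, (2 : ℝ) • (U ^ k * R * E * R * U ^ k) := by
      have h5 : a = U ^ K * a * U ^ K + (psiM v (phiM f e a)
        + (2⁻¹ : ℝ) • psiM v (Bmat μ lev (phiM f e a))
          + ∑ k ∈ Finset.range K, (2 : ℝ) • (U ^ k * R * E * R * U ^ k)) := by
        rw [← h1]; abel
      have h6 : psiM v (phiM f e a) - a = psiM v (phiM f e a) - (U ^ K * a * U ^ K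
        + (psiM v (phiM f e a)
        + (2⁻¹ : ℝ) • psiM v (Bmat μ lev (phiM f e a))
          + ∑ k ∈ Finset.range K, (2 : ℝ) • (U ^ k * R * E * R * U ^ k))) := by
        rw [← h5]
      rw [h6]; abel
    have hv1 : psiM v 1 ≤ 1 := by
      rw [hone]
      have h2 : (0 : A) ≤ U ^ K * U ^ K := by
        have h3 : star (U ^ K) * U ^ K = U ^ K * U ^ K := by rw [star_pow, hUs]
        rw [← h3]
        exact star_mul_self_nonneg _
      exact sub_le_self 1 h2
    rw [h4]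
    have b1 : ‖U ^ K * a * U ^ K‖ ≤ (u ^ K) ^ 2 * ‖a‖ := by
      calc ‖U ^ K * a * U ^ K‖ ≤ ‖U ^ K * a‖ * ‖U ^ K‖ := norm_mul_le _ _
        _ ≤ (‖U ^ K‖ * ‖a‖) * ‖U ^ K‖ := by gcongr; exact norm_mul_le _ _
        _ ≤ (u ^ K * ‖a‖) * u ^ K := by gcongr <;> exact hUk K
        _ = _ := by ring
    have b2 : ‖(2⁻¹ : ℝ) • psiM v (Bmat μ lev (phiM f e a))‖ ≤ bandMod n μ * ‖a‖ / 2 := by
      rw [norm_smul, Real.norm_of_nonneg (by norm_num)]
      have h7 := (psiM_norm_le v hv1 (Bmat μ lev (phiM f e a))).trans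
        (Bmat_norm_le hμ0 lev (phiM f e a) n hband)
      have h8 : bandMod n μ * ‖phiM f e a‖ ≤ bandMod n μ * ‖a‖ := by
        have : 0 ≤ bandMod n μ := Finset.sum_nonneg fun _ _ => abs_nonneg _
        gcongr
        exact phiM_norm_le f e he a
      linarith
    have b3 : ‖∑ k ∈ Finset.range K, (2 : ℝ) • (U ^ k * R * E * R * U ^ k)‖
        ≤ 2 * K * (‖E1 f μ lev e a‖ + ‖E1 f μ lev e (star a)‖) := by
      have hEn : ‖E‖ ≤ ‖E1 f μ lev e a‖ + ‖E1 f μ lev e (star a)‖ := by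
        rw [hE]
        refine (norm_add_le _ _).trans ?_
        rw [norm_star]
      refine (norm_sum_le _ _).trans ?_
      calc ∑ k ∈ Finset.range K, ‖(2 : ℝ) • (U ^ k * R * E * R * U ^ k)‖
          ≤ ∑ _k ∈ Finset.range K, 2 * (‖E1 f μ lev e a‖ + ‖E1 f μ lev e (star a)‖) := by
            refine Finset.sum_le_sum fun k _ => ?_
            rw [norm_smul, Real.norm_of_nonneg (by norm_num)]
            have : ‖U ^ k * R * E * R * U ^ k‖ ≤ ‖E‖ := by
              calc ‖U ^ k * R * E * R * U ^ k‖ ≤ ‖U ^ k * R * E * R‖ * ‖U ^ k‖ := norm_mul_le _ _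
                _ ≤ (‖U ^ k * R * E‖ * ‖R‖) * ‖U ^ k‖ := by gcongr; exact norm_mul_le _ _
                _ ≤ ((‖U ^ k * R‖ * ‖E‖) * ‖R‖) * ‖U ^ k‖ := by gcongr; exact norm_mul_le _ _
                _ ≤ (((‖U ^ k‖ * ‖R‖) * ‖E‖) * ‖R‖) * ‖U ^ k‖ := by gcongr; exact norm_mul_le _ _
                _ ≤ (((1 * 1) * ‖E‖) * 1) * 1 := by
                  gcongr <;> exact hUk1 k
                _ = ‖E‖ := by ring
            linarith
        _ = _ := by
          rw [Finset.sum_const, Finset.card_range, nsmul_eq_mul]; ring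
    calc ‖-(U ^ K * a * U ^ K) - (2⁻¹ : ℝ) • psiM v (Bmat μ lev (phiM f e a))
        - ∑ k ∈ Finset.range K, (2 : ℝ) • (U ^ k * R * E * R * U ^ k)‖
        ≤ ‖-(U ^ K * a * U ^ K) - (2⁻¹ : ℝ) • psiM v (Bmat μ lev (phiM f e a))‖
          + ‖∑ k ∈ Finset.range K, (2 : ℝ) • (U ^ k * R * E * R * U ^ k)‖ := norm_sub_le _ _
      _ ≤ (‖-(U ^ K * a * U ^ K)‖ + ‖(2⁻¹ : ℝ) • psiM v (Bmat μ lev (phiM f e a))‖)
          + ‖∑ k ∈ Finset.range K, (2 : ℝ) • (U ^ k * R * E * R * U ^ k)‖ := by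
            gcongr; exact norm_sub_le _ _
      _ ≤ _ := by
        rw [norm_neg]
        gcongr

end Pool.Agent.W39.Nuc
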