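import Mathlib
import Pool.Agent.W39.Nuc.Est
import Pool.Agent.W39.Nuc.Basis

set_option autoImplicit false

open scoped ComplexOrder MatrixOrder Matrix.Norms.L2Operator
open Matrix

namespace Pool.Agent.W39.Nuc

variable {A : Type*} [CStarAlgebra A] [PartialOrder A] [StarOrderedRing A]

/-- adapted orthonormal families, indexed by `Fin k` -/
theorem exists_adapted_fin (f : A →ₚ[ℂ] ℂ) (hf1 : f 1 = 1) (F : ℕ → Submodule ℂ A)
    [∀ n, FiniteDimensional ℂ (F n)] (hmono : Monotone F)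
    (hF0 : F 0 = Submodule.span ℂ {(1 : A)}) (m : ℕ)
    (hdef : ∀ x ∈ F m, f (star x * x) = 0 → x = 0) :
    ∃ (k : ℕ) (e : Fin k → A) (lev : Fin k → ℕ),
      (∀ i j, f (star (e i) * e j) = if i = j then 1 else 0) ∧
      (∀ i, e i ∈ F (lev i)) ∧ (∀ i, lev i ≤ m) ∧
      (∀ i, ∀ n < lev i, ∀ y ∈ F n, f (star y * e i) = 0) ∧
      (∀ x ∈ F m, x = ∑ i, f (star (e i) * x) • e i) ∧
      (∀ g : ℕ → ℝ, (∀ j, 0 ≤ g j) →
        ∑ i, g (lev i) ≤ ∑ j ∈ Finset.range (m + 1), (Module.finrank ℂ (F j) : ℝ) * g j) ∧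
      (∃ i, e i = 1 ∧ lev i = 0) := by
  obtain ⟨I, hI1, hI2, e, lev, P1, P2, P3, P4, P5, P6, P7⟩ := exists_adapted f hf1 F hmono hF0 m hdef
  let q : Fin (Fintype.card I) ≃ I := (Fintype.equivFin I).symm
  refine ⟨Fintype.card I, e ∘ q, lev ∘ q, ?_, ?_, ?_, ?_, ?_, ?_, ?_⟩
  · intro i j
    simp only [Function.comp_apply, P1, EmbeddingLike.apply_eq_iff_eq]
  · intro i; exact P2 _
  · intro i; exact P3 _
  · intro i; exact P4 _
  · intro x hx
    refine (P5 x hx).trans ?_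
    exact (Equiv.sum_comp q (fun i => f (star (e i) * x) • e i)).symm
  · intro g hg
    refine le_trans (le_of_eq ?_) (P6 g hg)
    exact Equiv.sum_comp q (fun i => g (lev i))
  · obtain ⟨i, hi1, hi2⟩ := P7
    refine ⟨q.symm i, ?_, ?_⟩
    · simp [hi1]
    · simp [hi2]

/-- the technical main theorem -/
theorem main_tech [Nontrivial A] (F : ℕ → Submodule ℂ A) (hmono : Monotone F)
    (hF0 : F 0 = Submodule.span ℂ {(1 : A)})
    (hmul : ∀ m n : ℕ, ∀ x ∈ F m, ∀ y ∈ F n, x * y ∈ F (m + n))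
    (hstar : ∀ n : ℕ, ∀ x ∈ F n, star x ∈ F n)
    (hfd : ∀ n : ℕ, FiniteDimensional ℂ (F n))
    (hgr : ∀ ρ : ℝ, 1 < ρ → ∃ C : ℝ, ∀ j : ℕ, (Module.finrank ℂ (F j) : ℝ) ≤ C * ρ ^ j)
    (n : ℕ) {M ε : ℝ} (hM : 0 < M) (hε : 0 < ε) :
    ∃ (k : ℕ) (f : A →ₚ[ℂ] ℂ) (e : Fin k → A) (K : ℕ) (v : Fin K → Fin k → A),
      (∀ i j, f (star (e i) * e j) = if i = j then 1 else 0) ∧ psiM v 1 ≤ 1 ∧
      ∀ a ∈ F n, ‖a‖ ≤ M → ‖psiM v (phiM f e a) - a‖ < ε := by
  have hone : ∀ n, (1 : A) ∈ F n := by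
    intro n
    refine hmono (Nat.zero_le n) ?_
    rw [hF0]
    exact Submodule.mem_span_singleton_self 1
  set d : ℕ → ℝ := fun j => (Module.finrank ℂ (F j) : ℝ) with hd
  have hd1 : ∀ j, 1 ≤ d j := by
    intro j
    have : Nontrivial (F j) := by
      refine ⟨⟨⟨1, hone j⟩, 0, ?_⟩⟩
      intro h
      have := congrArg Subtype.val h
      exact one_ne_zero this
    have h2 : 0 < Module.finrank ℂ (F j) := Module.finrank_pos
    have h3 : 1 ≤ Module.finrank ℂ (F j) := h2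
    simp only [hd]
    exact_mod_cast h3
  have hdmono : Monotone d := by
    intro i j hij
    simp only [hd]
    exact_mod_cast Submodule.finrank_mono (hmono hij)
  -- choice of ν
  obtain ⟨ν, hν0, hν1, hνband⟩ : ∃ ν : ℝ, 0 < ν ∧ ν < 1 ∧ bandMod n (ν ^ 2) * M / 2 < ε / 3 := by
    have h1 : Filter.Tendsto (fun ν : ℝ => bandMod n (ν ^ 2) * M / 2) (nhds 1) (nhds 0) := by
      have h2 : Filter.Tendsto (fun ν : ℝ => ν ^ 2) (nhds 1) (nhds 1) := by
        have : ContinuousAt (fun ν : ℝ => ν ^ 2) 1 := by fun_prop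
        have h3 := this.tendsto
        simpa using h3
      have h4 := ((bandMod_tendsto n).comp h2).mul_const (M / 2)
      rw [zero_mul] at h4
      refine h4.congr fun ν => ?_
      simp only [Function.comp_apply]
      ring
    have h5 : ∀ᶠ ν : ℝ in nhdsWithin 1 (Set.Iio 1), bandMod n (ν ^ 2) * M / 2 < ε / 3 :=
      (h1.mono_left nhdsWithin_le_nhds).eventually (gt_mem_nhds (by positivity))
    have h6 : ∀ᶠ ν : ℝ in nhdsWithin 1 (Set.Iio 1), 0 < ν :=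
      nhdsWithin_le_nhds (lt_mem_nhds zero_lt_one)
    have h7 : ∀ᶠ ν : ℝ in nhdsWithin 1 (Set.Iio 1), ν < 1 := self_mem_nhdsWithin
    obtain ⟨ν, ⟨ha, hb⟩, hc⟩ := ((h5.and h6).and h7).exists
    exact ⟨ν, hb, hc, ha⟩
  set μ : ℝ := ν ^ 2 with hμ
  have hμ0 : 0 < μ := by positivity
  have hμ1 : μ ≤ 1 := pow_le_one₀ hν0.le hν1.le
  obtain ⟨C, hC⟩ := hgr ν⁻¹ (by rw [one_lt_inv₀ hν0]; exact hν1)
  have hCpos : 0 < C := by
    have h1 := hC 0
    have h2 := hd1 0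
    simp only [hd] at h2
    rw [pow_zero, mul_one] at h1
    linarith
  have hdC : ∀ j, d j * ν ^ j ≤ C := by
    intro j
    have h1 := hC j
    calc d j * ν ^ j ≤ (C * (ν⁻¹) ^ j) * ν ^ j := by
          simp only [hd]
          gcongr
      _ = C := by
        rw [mul_assoc, ← mul_pow, inv_mul_cancel₀ hν0.ne', one_pow, mul_one]
  set κ : ℕ → ℝ := fun j => 20 * d j * ((j : ℝ) + 1) ^ 2 with hκ
  have hκ0 : ∀ j, 0 ≤ κ j := by
    intro j
    have := hd1 j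
    simp only [hκ]
    positivity
  have hκmono : Monotone κ := by
    intro i j hij
    simp only [hκ]
    have h1 := hdmono hij
    have h2 : (i : ℝ) ≤ j := by exact_mod_cast hij
    have h3 := hd1 i
    gcongr
  -- the constant h
  set g : ℕ → ℝ := fun j => (μ ^ j) ^ 2 * κ j with hg
  have hg0 : ∀ j, 0 ≤ g j := fun j => mul_nonneg (by positivity) (hκ0 j)
  have hdg0 : ∀ j, 0 ≤ d j * g j := fun j => mul_nonneg (zero_le_one.trans (hd1 j)) (hg0 j)
  have hsum : Summable (fun j => d j * g j) := by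
    have h1 : Summable (fun j : ℕ => 20 * C ^ 2 * (ν ^ 2)⁻¹ *
        (((j + 1 : ℕ) : ℝ) ^ 2 * (ν ^ 2) ^ (j + 1))) := by
      refine Summable.mul_left _ ?_
      have h2 : Summable (fun j : ℕ => (j : ℝ) ^ 2 * (ν ^ 2) ^ j) := by
        refine summable_pow_mul_geometric_of_norm_lt_one 2 ?_
        rw [Real.norm_of_nonneg (by positivity)]
        exact pow_lt_one₀ hν0.le hν1 (by norm_num)
      exact (summable_nat_add_iff 1).2 h2
    refine Summable.of_nonneg_of_le hdg0 (fun j => ?_) h1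
    have h3 : d j * g j = 20 * (d j * ν ^ j) ^ 2 * ((j : ℝ) + 1) ^ 2 * (ν ^ 2) ^ j := by
      simp only [hg, hκ, hμ]
      ring
    have h4 : (20 * C ^ 2 * (ν ^ 2)⁻¹ * (((j + 1 : ℕ) : ℝ) ^ 2 * (ν ^ 2) ^ (j + 1)))
        = 20 * C ^ 2 * ((j : ℝ) + 1) ^ 2 * (ν ^ 2) ^ j := by
      push_cast
      rw [pow_succ (ν ^ 2) j]
      field_simp
    rw [h3, h4]
    have h5 := hdC j
    have h6 : 0 ≤ d j * ν ^ j := mul_nonneg (zero_le_one.trans (hd1 j)) (by positivity)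
    gcongr
  set h : ℝ := ∑' j, d j * g j with hh
  have hpartial : ∀ m, ∑ j ∈ Finset.range (m + 1), d j * g j ≤ h := fun m =>
    hsum.sum_le_tsum _ (fun j _ => hdg0 j)
  have h1h : 1 ≤ h := by
    have h2 := hpartial 0
    have h3 : d 0 * g 0 = 20 * d 0 ^ 2 := by
      simp only [hg, hκ]
      norm_num
      ring
    rw [zero_add, Finset.range_one, Finset.sum_singleton, h3] at h2
    have h4 := hd1 0
    nlinarith
  -- choice of K
  set u : ℝ := 1 - 2 / (1 + h) with hu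
  have hu0 : 0 ≤ u := by
    rw [hu, sub_nonneg, div_le_one (by linarith)]; linarith
  have hu1 : u < 1 := by
    have : 0 < 2 / (1 + h) := by positivity
    rw [hu]; linarith
  obtain ⟨K, hK⟩ := exists_pow_lt_of_lt_one (show (0 : ℝ) < ε / (3 * M) by positivity) hu1
  have hK2 : (u ^ K) ^ 2 * M < ε / 3 := by
    have h2 : u ^ K ≤ 1 := pow_le_one₀ hu0 hu1.le
    have h3 : 0 ≤ u ^ K := by positivity
    have h4 : (u ^ K) ^ 2 ≤ u ^ K := by nlinarith
    calc (u ^ K) ^ 2 * M ≤ u ^ K * M := by gcongr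
      _ < ε / (3 * M) * M := by gcongr
      _ = ε / 3 := by field_simp
  -- choice of m
  obtain ⟨m, hmn, hm⟩ : ∃ m : ℕ, n ≤ m ∧
      4 * K * M * (40 * C ^ 3 * ((ν ^ (4 * n))⁻¹ * ν⁻¹)) * (((m + 1 : ℕ) : ℝ) ^ 4 * ν ^ (m + 1))
        < ε / 3 := by
    have h2 : Filter.Tendsto (fun m : ℕ => (m : ℝ) ^ 4 * ν ^ m) Filter.atTop (nhds 0) :=
      tendsto_pow_const_mul_const_pow_of_abs_lt_one 4 (by rw [abs_of_pos hν0]; exact hν1)
    have h3 : Filter.Tendsto (fun m : ℕ => ((m + 1 : ℕ) : ℝ) ^ 4 * ν ^ (m + 1)) Filter.atTop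
        (nhds 0) := (Filter.tendsto_add_atTop_iff_nat 1).2 h2
    have h4 := h3.const_mul (4 * K * M * (40 * C ^ 3 * ((ν ^ (4 * n))⁻¹ * ν⁻¹)))
    rw [mul_zero] at h4
    have h5 := (h4.eventually (gt_mem_nhds (show (0 : ℝ) < ε / 3 by positivity))).and
      (Filter.eventually_ge_atTop n)
    obtain ⟨m, hm1, hm2⟩ := h5.exists
    exact ⟨m, hm2, hm1⟩
  -- the state and the family
  obtain ⟨f₀, hf₀, hst⟩ := exists_state_seq F hone m
  set f : A →ₚ[ℂ] ℂ := St.toPos hf₀ with hf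
  have hf1 : f 1 = 1 := hf₀.2
  have hst' : ∀ j ≤ m, ∀ x ∈ F j, ‖x‖ ^ 2 ≤ κ j * (f (star x * x)).re := hst
  have hdef : ∀ x ∈ F m, f (star x * x) = 0 → x = 0 := by
    intro x hx h0
    have h2 := hst' m le_rfl x hx
    rw [h0, Complex.zero_re, mul_zero] at h2
    have h3 : ‖x‖ = 0 := by
      have := sq_nonneg ‖x‖
      exact pow_eq_zero_iff (two_ne_zero) |>.1 (le_antisymm h2 this)
    exact norm_eq_zero.1 h3
  obtain ⟨k, e, lev, P1, P2, P3, P4, P5, P6, P7⟩ := exists_adapted_fin f hf1 F hmono hF0 m hdef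
  have hek : ∀ i, ‖e i‖ ^ 2 ≤ κ (lev i) := by
    intro i
    have h2 := hst' (lev i) (P3 i) (e i) (P2 i)
    rw [P1, if_pos rfl, Complex.one_re, mul_one] at h2
    exact h2
  set c : ℝ := √(κ m) with hc
  have hc2 : c ^ 2 = κ m := Real.sq_sqrt (hκ0 m)
  have hec : ∀ i, ‖e i‖ ≤ c := by
    intro i
    apply Real.le_sqrt_of_sq_le
    exact (hek i).trans (hκmono (P3 i))
  have hHH : ‖HH μ lev e‖ ≤ h := by
    refine (norm_HH_le lev e κ hek).trans ?_
    exact (P6 g hg0).trans (hpartial m)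
  obtain ⟨v, hv1, hv2⟩ := main_est f hμ0 lev e P1 P7 hHH K
  refine ⟨k, f, e, K, v, P1, hv1, fun a ha haM => ?_⟩
  have hz : ∀ a ∈ F n, ∀ j, lev j + n ≤ m → a * e j = ∑ i, phiM f e a i j • e i := by
    intro a ha j hj
    have h2 : a * e j ∈ F m := by
      refine hmono ?_ (hmul n (lev j) a ha (e j) (P2 j))
      omega
    refine (P5 _ h2).trans ?_
    refine Finset.sum_congr rfl fun i _ => ?_
    rw [phiM_apply, mul_assoc]
  have hband : ∀ i j, lev i + n < lev j ∨ lev j + n < lev i → phiM f e a i j = 0 := by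
    rintro i j (hij | hij)
    · have h2 : star a * e i ∈ F (n + lev i) := hmul n (lev i) _ (hstar n a ha) _ (P2 i)
      have h3 := P4 j (n + lev i) (by omega) _ h2
      rw [star_mul, star_star] at h3
      rw [phiM_apply]
      exact h3
    · have h2 : a * e j ∈ F (n + lev j) := hmul n (lev j) _ ha _ (P2 j)
      have h3 := P4 i (n + lev j) (by omega) _ h2
      have h4 := congrArg star h3
      rw [← map_star f, star_mul, star_star, star_zero] at h4
      rw [phiM_apply, mul_assoc]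
      exact h4
  have hmain := hv2 n a hband
  -- bounds
  set N : ℝ := (Fintype.card (Fin k) : ℝ) with hN
  have hN0 : 0 ≤ N := by positivity
  have hNd : N ≤ ((m : ℝ) + 1) * d m := by
    have h2 := P6 (fun _ => 1) (fun _ => zero_le_one)
    rw [Finset.sum_const, Finset.card_univ, nsmul_eq_mul, mul_one] at h2
    refine h2.trans ?_
    calc ∑ j ∈ Finset.range (m + 1), (Module.finrank ℂ (F j) : ℝ) * 1
        ≤ ∑ _j ∈ Finset.range (m + 1), d m := by
          refine Finset.sum_le_sum fun j hj => ?_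
          rw [mul_one]
          exact hdmono (Nat.lt_succ_iff.1 (Finset.mem_range.1 hj))
      _ = _ := by
        rw [Finset.sum_const, Finset.card_range, nsmul_eq_mul]; push_cast; ring
  have hNd1 : 1 + N ≤ 2 * (((m : ℝ) + 1) * d m) := by
    have h2 := hd1 m
    have h3 : (0 : ℝ) ≤ m := Nat.cast_nonneg m
    nlinarith
  have hE : ∀ b ∈ F n, ‖b‖ ≤ M → ‖E1 f μ lev e b‖ ≤ (40 * C ^ 3 * ((ν ^ (4 * n))⁻¹ * ν⁻¹)) *
      (((m + 1 : ℕ) : ℝ) ^ 4 * ν ^ (m + 1)) * M := by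
    intro b hb hbM
    have h2 := norm_E1_le f hμ0 hμ1 lev e P1 (Real.sqrt_nonneg _) hec n m b (hz b hb)
    refine h2.trans ?_
    rw [← hN, hc2]
    have h3 : (μ ^ (m - n)) ^ 2 = (ν ^ (4 * n))⁻¹ * ν ^ (4 * m) := by
      rw [hμ, ← pow_mul, ← pow_mul]
      rw [eq_inv_mul_iff_mul_eq₀ (by positivity), ← pow_add]
      congr 1
      omega
    have h4 := hdC m
    have h5 : 0 ≤ d m := zero_le_one.trans (hd1 m)
    have h6 : (0 : ℝ) ≤ m := Nat.cast_nonneg m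
    have hκm := hκ0 m
    calc N * ((μ ^ (m - n)) ^ 2 * ((1 + N) * κ m * ‖b‖))
        ≤ (((m : ℝ) + 1) * d m) * ((μ ^ (m - n)) ^ 2 * ((2 * (((m : ℝ) + 1) * d m)) * κ m * M)) := by
          gcongr
      _ = 40 * (d m * ν ^ m) ^ 3 * (ν ^ (4 * n))⁻¹ * (((m : ℝ) + 1) ^ 4 * ν ^ m) * M := by
        rw [h3]
        simp only [hκ]
        ring
      _ ≤ 40 * C ^ 3 * (ν ^ (4 * n))⁻¹ * (((m : ℝ) + 1) ^ 4 * ν ^ m) * M := by
        gcongr
      _ = _ := by
        push_cast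
        rw [pow_succ ν m]
        field_simp
  have hEa := hE a ha haM
  have hEs := hE (star a) (hstar n a ha) (by rwa [norm_star])
  set X : ℝ := (40 * C ^ 3 * ((ν ^ (4 * n))⁻¹ * ν⁻¹)) *
      (((m + 1 : ℕ) : ℝ) ^ 4 * ν ^ (m + 1)) with hX
  have hm' : 4 * K * M * X < ε / 3 := by
    rw [hX]
    calc _ = 4 * K * M * (40 * C ^ 3 * ((ν ^ (4 * n))⁻¹ * ν⁻¹))
        * (((m + 1 : ℕ) : ℝ) ^ 4 * ν ^ (m + 1)) := by ring
      _ < _ := hm
  have hb1 : (u ^ K) ^ 2 * ‖a‖ ≤ (u ^ K) ^ 2 * M := by gcongr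
  have hb2 : bandMod n μ * ‖a‖ / 2 ≤ bandMod n μ * M / 2 := by
    have : 0 ≤ bandMod n μ := Finset.sum_nonneg fun _ _ => abs_nonneg _
    gcongr
  have hb3 : 2 * K * (‖E1 f μ lev e a‖ + ‖E1 f μ lev e (star a)‖) ≤ 4 * K * M * X := by
    calc 2 * K * (‖E1 f μ lev e a‖ + ‖E1 f μ lev e (star a)‖) ≤ 2 * K * (X * M + X * M) := by
          gcongr
      _ = _ := by ring
  linarith

end Pool.Agent.W39.Nuc
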