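import Pool.Agent.W39.Nuc.Final

set_option autoImplicit false
namespace Pool.Agent.W39.Nuc.SubexpNuclear

open Pool.Agent.W39.Nuc in
/-- subexponential growth gives exponential bounds with any base larger than one -/
lemma growth (d : ℕ → ℕ)
    (h : Filter.Tendsto (fun n : ℕ => (d n : ℝ) ^ (1 / (n : ℝ))) Filter.atTop (nhds 1))
    (ρ : ℝ) (hρ : 1 < ρ) : ∃ C : ℝ, ∀ j : ℕ, (d j : ℝ) ≤ C * ρ ^ j := by
  have h1 := (h.eventually (gt_mem_nhds hρ)).and (Filter.eventually_ge_atTop 1)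
  obtain ⟨N, hN⟩ := Filter.eventually_atTop.1 h1
  refine ⟨1 + ∑ j ∈ Finset.range N, (d j : ℝ), fun j => ?_⟩
  have hs : 0 ≤ ∑ j ∈ Finset.range N, (d j : ℝ) := Finset.sum_nonneg fun _ _ => Nat.cast_nonneg _
  have hρj : 1 ≤ ρ ^ j := one_le_pow₀ hρ.le
  by_cases hj : j < N
  · have h2 : (d j : ℝ) ≤ ∑ j ∈ Finset.range N, (d j : ℝ) :=
      Finset.single_le_sum (f := fun j => (d j : ℝ)) (fun _ _ => Nat.cast_nonneg _)
        (Finset.mem_range.2 hj)
    nlinarith
  · obtain ⟨h3, h4⟩ := hN j (not_lt.1 hj)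
    have hj0 : (j : ℝ) ≠ 0 := by
      have : j ≠ 0 := by omega
      exact_mod_cast this
    have h5 : (d j : ℝ) = ((d j : ℝ) ^ (1 / (j : ℝ))) ^ j := by
      rw [← Real.rpow_natCast, ← Real.rpow_mul (Nat.cast_nonneg _), one_div, inv_mul_cancel₀ hj0,
        Real.rpow_one]
    have h6 : (d j : ℝ) ≤ ρ ^ j := by
      rw [h5]
      have h7 : 0 ≤ (d j : ℝ) ^ (1 / (j : ℝ)) := Real.rpow_nonneg (Nat.cast_nonneg _) _
      gcongr
    nlinarith

open Pool.Agent.W39.Nuc in
/-- If a unital C*-algebra has a dense, *-closed, multiplicative filtration by finite-dimensional subspaces starting at C1 with dimensions growing subexponentially, then it has the completely positive approximation property through matrix algebras, i.e. it is nuclear. -/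
theorem subexp_nuclear :
  ∀ (A : Type) [CStarAlgebra A] (F : ℕ → Submodule ℂ A),
    Monotone F →
    F 0 = Submodule.span ℂ {(1 : A)} →
    (∀ m n : ℕ, ∀ x ∈ F m, ∀ y ∈ F n, x * y ∈ F (m + n)) →
    (∀ n : ℕ, ∀ x ∈ F n, star x ∈ F n) →
    Dense (⋃ n : ℕ, (F n : Set A)) →
    (∀ n : ℕ, FiniteDimensional ℂ (F n)) →
    Filter.Tendsto (fun n : ℕ => ((Module.finrank ℂ (F n) : ℕ) : ℝ) ^ (1 / (n : ℝ)))
      Filter.atTop (nhds 1) →
    ∀ (S : Finset A) (ε : ℝ), 0 < ε →
      ∃ (k : ℕ)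
        (φ : A →ₗ[ℂ] (EuclideanSpace ℂ (Fin k) →L[ℂ] EuclideanSpace ℂ (Fin k)))
        (ψ : (EuclideanSpace ℂ (Fin k) →L[ℂ] EuclideanSpace ℂ (Fin k)) →ₗ[ℂ] A),
        (∀ (n : ℕ) (y : Matrix (Fin n) (Fin n) A),
          ∃ z : Matrix (Fin n) (Fin n)
              (EuclideanSpace ℂ (Fin k) →L[ℂ] EuclideanSpace ℂ (Fin k)),
            (y.conjTranspose * y).map (⇑φ) = z.conjTranspose * z) ∧
        (∀ (n : ℕ) (y : Matrix (Fin n) (Fin n)
              (EuclideanSpace ℂ (Fin k) →L[ℂ] EuclideanSpace ℂ (Fin k))),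
          ∃ z : Matrix (Fin n) (Fin n) A,
            (y.conjTranspose * y).map (⇑ψ) = z.conjTranspose * z) ∧
        (∀ a : A, ‖φ a‖ ≤ ‖a‖) ∧
        (∀ b : EuclideanSpace ℂ (Fin k) →L[ℂ] EuclideanSpace ℂ (Fin k), ‖ψ b‖ ≤ ‖b‖) ∧
        ∀ a ∈ S, ‖ψ (φ a) - a‖ < ε := by
  intro A _ F hmono hF0 hmul hstar hdense hfd hlim S ε hε
  rcases subsingleton_or_nontrivial A with hA | hA
  · refine ⟨0, 0, 0, ?_, ?_, ?_, ?_, ?_⟩
    · intro n y
      refine ⟨0, ?_⟩
      ext i j
      simp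
    · intro n y
      exact ⟨0, Subsingleton.elim _ _⟩
    · intro a
      simp
    · intro b
      simp
    · intro a _
      rw [Subsingleton.elim ((0 : (EuclideanSpace ℂ (Fin 0) →L[ℂ] EuclideanSpace ℂ (Fin 0)) →ₗ[ℂ] A)
        ((0 : A →ₗ[ℂ] (EuclideanSpace ℂ (Fin 0) →L[ℂ] EuclideanSpace ℂ (Fin 0))) a) - a) 0, norm_zero]
      exact hε
  · let _ := CStarAlgebra.spectralOrder A
    have _ := CStarAlgebra.spectralOrderedRing A
    have hgr := growth (fun j => Module.finrank ℂ (F j)) hlim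
    -- approximants
    have happrox : ∀ a : A, ∃ a' : A, (∃ n, a' ∈ F n) ∧ ‖a - a'‖ < ε / 3 := by
      intro a
      obtain ⟨a', ha', hd⟩ := Metric.dense_iff.1 hdense a (ε / 3) (by positivity)
      rw [Metric.mem_ball, dist_eq_norm] at ha'
      obtain ⟨n, hn⟩ := Set.mem_iUnion.1 hd
      refine ⟨a', ⟨n, hn⟩, ?_⟩
      rwa [norm_sub_rev]
    choose p hpn hpd using happrox
    choose N hN using hpn
    set n : ℕ := S.sup N with hn
    set M : ℝ := 1 + ∑ a ∈ S, ‖p a‖ with hM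
    have hsum0 : 0 ≤ ∑ a ∈ S, ‖p a‖ := Finset.sum_nonneg fun _ _ => norm_nonneg _
    have hMpos : 0 < M := by linarith
    obtain ⟨k, f, e, K, v, he, hv, hmain⟩ := main_tech F hmono hF0 hmul hstar hfd hgr n hMpos
      (show (0 : ℝ) < ε / 3 by positivity)
    let T : Matrix (Fin k) (Fin k) ℂ ≃⋆ₐ[ℂ]
        (EuclideanSpace ℂ (Fin k) →L[ℂ] EuclideanSpace ℂ (Fin k)) :=
      Matrix.toEuclideanCLM (𝕜 := ℂ) (n := Fin k)
    let φ : A →ₗ[ℂ] (EuclideanSpace ℂ (Fin k) →L[ℂ] EuclideanSpace ℂ (Fin k)) :=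
      { toFun := fun a => T (phiM f e a)
        map_add' := fun a b => by rw [map_add, map_add]
        map_smul' := fun c a => by rw [map_smul, map_smul]; rfl }
    let ψ : (EuclideanSpace ℂ (Fin k) →L[ℂ] EuclideanSpace ℂ (Fin k)) →ₗ[ℂ] A :=
      { toFun := fun b => psiM v (T.symm b)
        map_add' := fun a b => by rw [map_add, map_add]
        map_smul' := fun c a => by rw [map_smul, map_smul]; rfl }
    have hφn : ∀ a : A, ‖φ a‖ ≤ ‖a‖ := fun a => phiM_norm_le f e he a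
    have hψn : ∀ b : EuclideanSpace ℂ (Fin k) →L[ℂ] EuclideanSpace ℂ (Fin k), ‖ψ b‖ ≤ ‖b‖ := by
      intro b
      have h1 := psiM_norm_le v hv (T.symm b)
      have h2 := Matrix.cstar_norm_def (T.symm b)
      have h3 : Matrix.toEuclideanCLM (𝕜 := ℂ) (n := Fin k) (T.symm b) = b := T.apply_symm_apply b
      rw [h3] at h2
      exact h1.trans (le_of_eq h2)
    refine ⟨k, φ, ψ, ?_, ?_, hφn, hψn, ?_⟩
    · intro r y
      obtain ⟨z, hz⟩ := phiM_cp f e r y
      refine ⟨z.map T, ?_⟩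
      have h1 : (y.conjTranspose * y).map (⇑φ) = ((y.conjTranspose * y).map (phiM f e)).map T := rfl
      rw [h1, hz]
      ext1 i j
      rw [Matrix.map_apply, Matrix.mul_apply, Matrix.mul_apply, map_sum]
      refine Finset.sum_congr rfl fun l _ => ?_
      rw [map_mul, Matrix.conjTranspose_apply, Matrix.conjTranspose_apply, map_star,
        Matrix.map_apply, Matrix.map_apply]
    · intro r y
      obtain ⟨z, hz⟩ := psiM_cp v r (y.map T.symm)
      refine ⟨z, ?_⟩
      rw [← hz]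
      ext1 i j
      rw [Matrix.map_apply, Matrix.map_apply, Matrix.mul_apply, Matrix.mul_apply, map_sum, map_sum]
      refine Finset.sum_congr rfl fun l _ => ?_
      change psiM v (T.symm (y.conjTranspose i l * y l j)) = _
      have hTs : ∀ b, T.symm (star b) = star (T.symm b) := by
        intro b
        apply T.injective
        change T (T.symm (star b)) = T (star (T.symm b))
        rw [T.apply_symm_apply, map_star, T.apply_symm_apply]
      have hTm : ∀ b c, T.symm (b * c) = T.symm b * T.symm c := by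
        intro b c
        exact map_mul T.symm b c
      rw [hTm, Matrix.conjTranspose_apply, Matrix.conjTranspose_apply, hTs,
        Matrix.map_apply, Matrix.map_apply]
    · intro a ha
      have h1 : ψ (φ (p a)) = psiM v (phiM f e (p a)) := by
        change psiM v (T.symm (T (phiM f e (p a)))) = _
        rw [T.symm_apply_apply]
      have hpF : p a ∈ F n := hmono (Finset.le_sup ha) (hN a)
      have hpM : ‖p a‖ ≤ M := by
        have := Finset.single_le_sum (f := fun a => ‖p a‖) (fun _ _ => norm_nonneg _) ha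
        linarith
      have h2 := hmain (p a) hpF hpM
      rw [← h1] at h2
      have h3 : ψ (φ a) - a = ψ (φ (a - p a)) + (ψ (φ (p a)) - p a) - (a - p a) := by
        rw [map_sub, map_sub]; abel
      rw [h3]
      have h4 : ‖ψ (φ (a - p a))‖ < ε / 3 :=
        ((hψn _).trans (hφn _)).trans_lt (hpd a)
      calc ‖ψ (φ (a - p a)) + (ψ (φ (p a)) - p a) - (a - p a)‖
          ≤ ‖ψ (φ (a - p a)) + (ψ (φ (p a)) - p a)‖ + ‖a - p a‖ := norm_sub_le _ _
        _ ≤ (‖ψ (φ (a - p a))‖ + ‖ψ (φ (p a)) - p a‖) + ‖a - p a‖ := by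
          gcongr; exact norm_add_le _ _
        _ < (ε / 3 + ε / 3) + ε / 3 := by
          have := hpd a
          gcongr
        _ = ε := by ring

end Pool.Agent.W39.Nuc.SubexpNuclear
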